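import Mathlib

namespace Pool.Agent.Lib.MP_cfcaf3_co

/-- `f_n(G)`: the number of orbits of the group `G`, acting on `X`, on the `n`-element subsets
of `X`. -/
noncomputable def orbitCount (G : Type) [Group G] (X : Type) [DecidableEq X] [MulAction G X]
    (n : ℕ) : ℕ :=
  Nat.card (MulAction.orbitRel.Quotient G (Set.powersetCard X n))

/-- `S Wr S₂` in the product action on `Ω × Ω`: generated by the maps `(α, β) ↦ (g α, h β)` and
the swap of coordinates. -/
def wreath (Ω : Type) : Subgroup (Equiv.Perm (Ω × Ω)) :=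
  Subgroup.closure
    ({σ | ∃ g h : Equiv.Perm Ω, σ = Equiv.prodCongr g h} ∪ {Equiv.prodComm Ω Ω})

end Pool.Agent.Lib.MP_cfcaf3_co
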