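import Mathlib

namespace Pool.Agent.Lib.MP_cfcaf3_co

open Finset Equiv

variable {X : Type*} [Fintype X] [DecidableEq X]

/-- a finite set invariant under a permutation -/
def Inv (σ : Perm X) (W : Finset X) : Prop := ∀ x ∈ W, σ x ∈ W

instance (σ : Perm X) : DecidablePred (Inv σ) := fun W => by unfold Inv; infer_instance

omit [Fintype X] [DecidableEq X] in
theorem Inv.pow {σ : Perm X} {W : Finset X} (h : Inv σ W) (k : ℕ) {x : X} (hx : x ∈ W) :
    (σ ^ k) x ∈ W := by
  induction k with
  | zero => simpa using hx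
  | succ k ih => rw [pow_succ', Perm.mul_apply]; exact h _ ih

omit [DecidableEq X] in
theorem Inv.sameCycle {σ : Perm X} {W : Finset X} (h : Inv σ W) {x y : X} (hxy : σ.SameCycle x y)
    (hx : x ∈ W) : y ∈ W := by
  obtain ⟨i, -, rfl⟩ := hxy.exists_pow_eq'
  exact h.pow i hx

omit [DecidableEq X] in
theorem Inv.iff {σ : Perm X} {W : Finset X} (h : Inv σ W) (x : X) : σ x ∈ W ↔ x ∈ W :=
  ⟨fun hx => h.sameCycle (Perm.SameCycle.symm ⟨1, by simp⟩) hx, h x⟩

theorem gf0 (σ : Perm X) (Y : Finset X) (hY : ∀ x ∈ Y, σ x ≠ x) (y : ℝ) (h0 : 0 ≤ y)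
    (h1 : y ≤ 1) :
    ∑ W ∈ Y.powerset.filter (Inv σ), y ^ W.card ≤ (1 + y ^ 2) ^ Y.card := by
  let rep : X → X := fun x => (Quotient.mk (Perm.SameCycle.setoid σ) x).out
  have hrep : ∀ x, σ.SameCycle (rep x) x := fun x =>
    Quotient.mk_out (s := Perm.SameCycle.setoid σ) x
  have hrep2 : ∀ x y, σ.SameCycle x y → rep x = rep y := by
    intro x y h
    simp only [rep]
    rw [Quotient.sound (s := Perm.SameCycle.setoid σ) h]
  have hrep3 : ∀ x, rep (rep x) = rep x := fun x => hrep2 _ _ (hrep x)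
  let T : Finset X → Finset X := fun W => W.image rep
  have hsub : ∀ W, Inv σ W → T W ⊆ W := by
    intro W hW z hz
    obtain ⟨x, hx, rfl⟩ := mem_image.1 hz
    exact hW.sameCycle (hrep x).symm hx
  have hmem : ∀ W, Inv σ W → ∀ x, x ∈ W ↔ rep x ∈ T W := by
    intro W hW x
    exact ⟨fun hx => mem_image_of_mem _ hx, fun hx => hW.sameCycle (hrep x) (hsub W hW hx)⟩
  have hcard : ∀ W ∈ Y.powerset.filter (Inv σ), 2 * (T W).card ≤ W.card := by
    intro W hW
    obtain ⟨hWY, hW⟩ := mem_filter.1 hW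
    have hd : Disjoint (T W) ((T W).image σ) := by
      rw [disjoint_left]
      intro z hz hz'
      obtain ⟨x, hx, rfl⟩ := mem_image.1 hz'
      obtain ⟨a, -, ha⟩ := mem_image.1 hz
      obtain ⟨b, -, hb⟩ := mem_image.1 hx
      have e1 : rep (σ x) = σ x := by rw [← ha, hrep3]
      have e2 : rep x = x := by rw [← hb, hrep3]
      have e3 : rep x = rep (σ x) := hrep2 _ _ ⟨1, by simp⟩
      exact hY x (mem_powerset.1 hWY (hsub W hW hx)) (by rw [← e1, ← e3, e2])
    have h2 : T W ∪ (T W).image σ ⊆ W := by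
      refine union_subset (hsub W hW) ?_
      intro z hz
      obtain ⟨x, hx, rfl⟩ := mem_image.1 hz
      exact hW x (hsub W hW hx)
    have h3 := card_le_card h2
    rw [card_union_of_disjoint hd, card_image_of_injective _ σ.injective] at h3
    omega
  have hinj : Set.InjOn T (Y.powerset.filter (Inv σ) : Set (Finset X)) := by
    intro W hW W' hW' h
    have a1 := (mem_filter.1 (mem_coe.1 hW)).2
    have a2 := (mem_filter.1 (mem_coe.1 hW')).2
    ext x
    rw [hmem W a1, hmem W' a2, h]
  calc ∑ W ∈ Y.powerset.filter (Inv σ), y ^ W.card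
      ≤ ∑ W ∈ Y.powerset.filter (Inv σ), (y ^ 2) ^ (T W).card := by
        refine sum_le_sum fun W hW => ?_
        rw [← pow_mul]
        exact pow_le_pow_of_le_one h0 h1 (hcard W hW)
    _ = ∑ S ∈ (Y.powerset.filter (Inv σ)).image T, (y ^ 2) ^ S.card :=
        (sum_image (f := fun S : Finset X => (y ^ 2) ^ S.card) hinj).symm
    _ ≤ ∑ S ∈ Y.powerset, (y ^ 2) ^ S.card := by
        refine sum_le_sum_of_subset_of_nonneg ?_ (fun _ _ _ => by positivity)
        intro S hS
        obtain ⟨W, hW, rfl⟩ := mem_image.1 hS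
        obtain ⟨hWY, hW⟩ := mem_filter.1 hW
        exact mem_powerset.2 ((hsub W hW).trans (mem_powerset.1 hWY))
    _ = (1 + y ^ 2) ^ Y.card := by
        rw [← prod_const, prod_one_add]
        simp only [prod_const]

/-- counting invariant `n`-sets inside `F ∪ Y` with many points outside `F` -/
theorem split (σ : Perm X) (F Y : Finset X) (hF : ∀ x ∈ F, σ x = x) (hY : ∀ x ∈ Y, σ x ≠ x)
    (n j0 : ℕ) (c x ρ : ℝ) (hc : 0 ≤ c) (hρ0 : 0 < ρ) (hρ1 : ρ ≤ 1) (hx0 : 0 ≤ x)
    (hx : x ≤ ρ ^ 2) (hch : ∀ j ≤ n, (F.card.choose (n - j) : ℝ) ≤ c * x ^ j) :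
    ((((F ∪ Y).powersetCard n).filter
      (fun W => Inv σ W ∧ j0 ≤ 2 * (W \ F).card)).card : ℝ) ≤
      c * ρ ^ j0 * (1 + (x / ρ ^ 2) ^ 2) ^ Y.card := by
  set S := ((F ∪ Y).powersetCard n).filter (fun W => Inv σ W ∧ j0 ≤ 2 * (W \ F).card) with hS
  have hmaps : ∀ W ∈ S, W \ F ∈ Y.powerset.filter (Inv σ) := by
    intro W hW
    obtain ⟨h1, h2, -⟩ := mem_filter.1 hW
    have h3 := (mem_powersetCard.1 h1).1
    refine mem_filter.2 ⟨mem_powerset.2 ?_, ?_⟩
    · intro z hz
      obtain ⟨a, b⟩ := mem_sdiff.1 hz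
      exact (mem_union.1 (h3 a)).resolve_left b
    · intro z hz
      obtain ⟨a, b⟩ := mem_sdiff.1 hz
      refine mem_sdiff.2 ⟨h2 z a, fun h => b ?_⟩
      have := σ.injective (hF _ h)
      rwa [this] at h
  have hρ2 : 0 < ρ ^ 2 := by positivity
  have hfib : ∀ W1 ∈ Y.powerset.filter (Inv σ),
      ((S.filter (fun W => W \ F = W1)).card : ℝ) ≤ c * ρ ^ j0 * (x / ρ ^ 2) ^ W1.card := by
    intro W1 _
    rcases (S.filter (fun W => W \ F = W1)).eq_empty_or_nonempty with h | ⟨W0, hW0⟩
    · rw [h]; simp only [card_empty, Nat.cast_zero]; positivity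
    obtain ⟨hW0S, hW01⟩ := mem_filter.1 hW0
    obtain ⟨h1, -, h2⟩ := mem_filter.1 hW0S
    have h3 : W1.card ≤ n := by
      rw [← hW01, ← (mem_powersetCard.1 h1).2]; exact card_le_card sdiff_subset
    rw [hW01] at h2
    have h4 : (S.filter (fun W => W \ F = W1)).card ≤ (F.powersetCard (n - W1.card)).card := by
      refine card_le_card_of_injOn (fun W => W ∩ F) ?_ ?_
      · intro W hW
        obtain ⟨a, b⟩ := mem_filter.1 (mem_coe.1 hW)
        have a1 := (mem_powersetCard.1 (mem_filter.1 a).1).2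
        refine mem_coe.2 (mem_powersetCard.2 ⟨inter_subset_right, ?_⟩)
        have := card_sdiff_add_card_inter W F
        rw [b, a1] at this
        simp only
        omega
      · intro W hW W' hW' h
        have a := (mem_filter.1 (mem_coe.1 hW)).2
        have b := (mem_filter.1 (mem_coe.1 hW')).2
        simp only at h
        rw [← sdiff_union_inter W F, ← sdiff_union_inter W' F, a, b, h]
    rw [card_powersetCard] at h4
    refine le_trans (Nat.cast_le.2 h4) ((hch _ h3).trans ?_)
    rw [mul_assoc]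
    refine mul_le_mul_of_nonneg_left ?_ hc
    have e : x ^ W1.card = ρ ^ (2 * W1.card) * (x / ρ ^ 2) ^ W1.card := by
      rw [pow_mul, ← mul_pow, mul_div_cancel₀ _ hρ2.ne']
    rw [e]
    exact mul_le_mul_of_nonneg_right (pow_le_pow_of_le_one hρ0.le hρ1 h2) (by positivity)
  rw [card_eq_sum_card_fiberwise hmaps, Nat.cast_sum]
  refine (sum_le_sum hfib).trans ?_
  rw [← mul_sum]
  exact mul_le_mul_of_nonneg_left
    (gf0 σ Y hY _ (by positivity) ((div_le_one hρ2).2 hx)) (by positivity)

/-- fixed points of a permutation -/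
def fx (g : Perm X) : Finset X := univ.filter fun x => g x = x

theorem mem_fx {g : Perm X} {x : X} : x ∈ fx g ↔ g x = x := by simp [fx]

theorem count0 (A K : Finset X) (hAK : Disjoint A K) :
    (univ.filter fun g : Perm X => (∀ x ∈ A, g x = x) ∧ Inv g K).card ≤
      K.card.factorial * (Fintype.card X - A.card - K.card).factorial := by
  set R := (A ∪ K)ᶜ with hR
  have hRc : R.card = Fintype.card X - A.card - K.card := by
    rw [hR, card_compl, card_union_of_disjoint hAK, Nat.sub_sub]
  let p : Perm X → Prop := fun g => (∀ x ∈ A, g x = x) ∧ Inv g K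
  have hK : ∀ g : {g // p g}, ∀ x, g.1 x ∈ K ↔ x ∈ K := fun g => g.2.2.iff
  have hA : ∀ g : {g // p g}, ∀ x, g.1 x ∈ A ↔ x ∈ A := fun g =>
    Inv.iff (fun x hx => by rw [g.2.1 x hx]; exact hx)
  have hRi : ∀ g : {g // p g}, ∀ x, g.1 x ∈ R ↔ x ∈ R := by
    intro g x
    simp only [hR, mem_compl, mem_union, hK g, hA g]
  let Φ : {g // p g} → Perm {x // x ∈ K} × Perm {x // x ∈ R} := fun g =>
    (g.1.subtypePerm (hK g), g.1.subtypePerm (hRi g))
  have hΦ : Function.Injective Φ := by
    intro g g' h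
    apply Subtype.ext
    ext x
    by_cases hxA : x ∈ A
    · rw [g.2.1 x hxA, g'.2.1 x hxA]
    by_cases hxK : x ∈ K
    · have := congrArg (fun q : Perm {x // x ∈ K} × Perm {x // x ∈ R} => (q.1 ⟨x, hxK⟩).1) h
      exact this
    · have hxR : x ∈ R := by simp [hR, hxA, hxK]
      have := congrArg (fun q : Perm {x // x ∈ K} × Perm {x // x ∈ R} => (q.2 ⟨x, hxR⟩).1) h
      exact this
  have := Fintype.card_le_of_injective Φ hΦ
  rw [Fintype.card_subtype, Fintype.card_prod, Fintype.card_perm, Fintype.card_perm,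
    Fintype.card_coe, Fintype.card_coe, hRc] at this
  exact this

theorem card_fx_eq (A : Finset X) :
    (univ.filter fun g : Perm X => fx g = A).card =
      numDerangements (Fintype.card X - A.card) := by
  have e := derangements.subtypeEquiv (α := X) (fun x => x ∉ A)
  have h1 := Fintype.card_congr e
  rw [card_derangements_eq_numDerangements, Fintype.card_subtype_compl, Fintype.card_coe,
    Fintype.card_subtype] at h1
  rw [h1]
  congr 1
  ext g
  simp only [mem_filter, mem_univ, true_and, not_not, Function.mem_fixedPoints, Finset.ext_iff,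
    mem_fx, Function.IsFixedPt]
  exact ⟨fun h a => (h a).symm, fun h a => (h a).symm⟩

omit [DecidableEq X] in
theorem sum_finset_card (G : ℕ → ℝ) :
    ∑ A : Finset X, G A.card =
      ∑ a ∈ range (Fintype.card X + 1), ((Fintype.card X).choose a : ℝ) * G a := by
  rw [← powerset_univ, sum_powerset_apply_card]
  simp [nsmul_eq_mul]

theorem count1 (G : ℕ → ℝ) :
    ∑ g : Perm X, G (fx g).card =
      ∑ a ∈ range (Fintype.card X + 1), ((Fintype.card X).choose a : ℝ) *
        (numDerangements (Fintype.card X - a) * G a) := by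
  rw [← sum_finset_card (fun a => numDerangements (Fintype.card X - a) * G a),
    ← sum_fiberwise (s := univ) (g := fun g : Perm X => fx g)]
  refine sum_congr rfl fun A _ => ?_
  rw [← card_fx_eq, ← nsmul_eq_mul, ← sum_const]
  refine sum_congr rfl fun g hg => ?_
  rw [(mem_filter.1 hg).2]

/-- invariant `k`-sets of moved points -/
def invS (g : Perm X) (k : ℕ) : Finset (Finset X) := ((fx g)ᶜ.powersetCard k).filter (Inv g)

theorem count2 (k : ℕ) (G : ℕ → ℝ) (hG : ∀ a, 0 ≤ G a) :
    ∑ g : Perm X, ((invS g k).card : ℝ) * G (fx g).card ≤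
      ∑ a ∈ range (Fintype.card X + 1), ((Fintype.card X).factorial : ℝ) / a.factorial * G a := by
  set N := Fintype.card X with hN
  have h1 : ∀ A : Finset X, ∑ g ∈ univ.filter (fun g : Perm X => fx g = A),
      ((invS g k).card : ℝ) * G (fx g).card ≤ ((N - A.card).factorial : ℝ) * G A.card := by
    intro A
    have e1 : ∑ g ∈ univ.filter (fun g : Perm X => fx g = A),
        ((invS g k).card : ℝ) * G (fx g).card =
        ((∑ g ∈ univ.filter (fun g : Perm X => fx g = A),
          ((Aᶜ.powersetCard k).filter (Inv g)).card : ℕ) : ℝ) * G A.card := by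
      rw [Nat.cast_sum, sum_mul]
      refine sum_congr rfl fun g hg => ?_
      rw [invS, (mem_filter.1 hg).2]
    rw [e1]
    refine mul_le_mul_of_nonneg_right (Nat.cast_le.2 ?_) (hG _)
    simp only [card_filter]
    rw [sum_comm]
    have e2 : ∀ K ∈ Aᶜ.powersetCard k,
        (∑ g ∈ univ.filter (fun g : Perm X => fx g = A), if Inv g K then 1 else 0) ≤
          k.factorial * (N - A.card - k).factorial := by
      intro K hK
      obtain ⟨a, b⟩ := mem_powersetCard.1 hK
      have hd : Disjoint A K := by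
        rw [disjoint_left]; intro x hx hxK; exact (mem_compl.1 (a hxK)) hx
      have := count0 A K hd
      rw [b] at this
      refine le_trans ?_ this
      rw [← card_filter, filter_filter]
      refine card_le_card fun g hg => ?_
      obtain ⟨-, c, d⟩ := mem_filter.1 hg
      exact mem_filter.2 ⟨mem_univ _, fun x hx => mem_fx.1 (c ▸ hx), d⟩
    refine (sum_le_sum e2).trans ?_
    rw [sum_const, card_powersetCard, card_compl, smul_eq_mul, ← hN]
    by_cases hk : k ≤ N - A.card
    · rw [← mul_assoc, Nat.choose_mul_factorial_mul_factorial hk]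
    · rw [Nat.choose_eq_zero_of_lt (not_le.1 hk)]; simp
  rw [← sum_fiberwise (s := univ) (g := fun g : Perm X => fx g)]
  refine (sum_le_sum fun A _ => h1 A).trans (le_of_eq ?_)
  rw [sum_finset_card (fun a => ((N - a).factorial : ℝ) * G a)]
  refine sum_congr rfl fun a ha => ?_
  have ha' : a ≤ N := Nat.lt_succ_iff.1 (mem_range.1 ha)
  have := Nat.choose_mul_factorial_mul_factorial ha'
  rw [← hN, ← this]
  have h3 : (a.factorial : ℝ) ≠ 0 := by positivity
  push_cast
  field_simp

theorem count3 (k : ℕ) :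
    ∑ g : Perm X, (((univ : Finset X).powersetCard k).filter (Inv g)).card ≤
      (Fintype.card X).factorial := by
  simp only [card_filter]
  rw [sum_comm]
  have e2 : ∀ K ∈ (univ : Finset X).powersetCard k,
      (∑ g : Perm X, if Inv g K then 1 else 0) ≤
        k.factorial * (Fintype.card X - k).factorial := by
    intro K hK
    obtain ⟨-, b⟩ := mem_powersetCard.1 hK
    have := count0 ∅ K (disjoint_empty_left _)
    rw [b] at this
    rw [← card_filter]
    simpa using this
  refine (sum_le_sum e2).trans ?_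
  rw [sum_const, card_powersetCard, card_univ, smul_eq_mul]
  by_cases hk : k ≤ Fintype.card X
  · rw [← mul_assoc, Nat.choose_mul_factorial_mul_factorial hk]
  · rw [Nat.choose_eq_zero_of_lt (not_le.1 hk)]; simp

theorem choose_le_mul_pow (M n : ℕ) (hn : n ≤ M) (j : ℕ) (hj : j ≤ n) :
    (M.choose (n - j) : ℝ) ≤ M.choose n * ((n : ℝ) / ((M : ℝ) - n + 1)) ^ j := by
  have hn' : (n : ℝ) ≤ M := by exact_mod_cast hn
  have hpos : (0 : ℝ) < (M : ℝ) - n + 1 := by linarith
  induction j with
  | zero => simp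
  | succ j ih =>
    have h1 := ih (by omega)
    obtain ⟨t, ht⟩ : ∃ t, n - (j + 1) = t := ⟨_, rfl⟩
    have e1 : n - j = t + 1 := by omega
    rw [ht]
    rw [e1] at h1
    have h2 := Nat.choose_succ_right_eq M t
    have h3 : (M.choose (t + 1) : ℝ) * (t + 1) = M.choose t * ((M : ℝ) - t) := by
      have : t ≤ M := by omega
      rw [← Nat.cast_sub this]
      exact_mod_cast h2
    have h4 : (t : ℝ) + 1 ≤ n := by exact_mod_cast (by omega : t + 1 ≤ n)
    have h5 : (M.choose t : ℝ) ≤ M.choose (t + 1) * ((n : ℝ) / ((M : ℝ) - n + 1)) := by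
      rw [← mul_div_assoc, le_div_iff₀ hpos]
      have a1 : (0 : ℝ) ≤ M.choose t := Nat.cast_nonneg _
      have a2 : (0 : ℝ) ≤ M.choose (t + 1) := Nat.cast_nonneg _
      nlinarith
    refine h5.trans ?_
    rw [pow_succ, ← mul_assoc]
    exact mul_le_mul_of_nonneg_right h1 (by positivity)

theorem choose_le_crude (M n : ℕ) (x : ℝ) (hx : 0 < x) (j : ℕ) (hj : j ≤ n) :
    (M.choose (n - j) : ℝ) ≤ ((1 / x) ^ n * Real.exp (x * M)) * x ^ j := by
  have h1 : (M.choose (n - j) : ℝ) * x ^ (n - j) ≤ Real.exp (x * M) := by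
    have a1 : (M.choose (n - j) : ℝ) ≤ (M : ℝ) ^ (n - j) / (n - j).factorial :=
      Nat.choose_le_pow_div _ _
    have a2 := Real.pow_div_factorial_le_exp (x * M) (by positivity) (n - j)
    refine le_trans ?_ a2
    rw [mul_pow, mul_div_assoc, mul_comm]
    exact mul_le_mul_of_nonneg_left a1 (by positivity)
  have h2 : (1 / x) ^ n * x ^ j * x ^ (n - j) = 1 := by
    rw [mul_assoc, ← pow_add, Nat.add_sub_cancel' hj, ← mul_pow, one_div_mul_cancel hx.ne',
      one_pow]
  calc (M.choose (n - j) : ℝ) = (1 / x) ^ n * x ^ j * (M.choose (n - j) * x ^ (n - j)) := by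
        linear_combination -(M.choose (n - j) : ℝ) * h2
    _ ≤ (1 / x) ^ n * x ^ j * Real.exp (x * M) :=
        mul_le_mul_of_nonneg_left h1 (by positivity)
    _ = _ := by ring

end Pool.Agent.Lib.MP_cfcaf3_co
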