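import Mathlib
import Pool.Agent.Lib.MP_cfcaf3_co.Count

namespace Pool.Agent.Lib.MP_cfcaf3_co

open Finset Equiv

/-- number of invariant `n`-sets -/
def fixN {X : Type*} [Fintype X] [DecidableEq X] (σ : Perm X) (n : ℕ) : ℕ :=
  (((univ : Finset X).powersetCard n).filter (Inv σ)).card

variable {α : Type*} [Fintype α] [DecidableEq α]

theorem one_add_pow_le_exp {y : ℝ} (hy : 0 ≤ y) (k : ℕ) : (1 + y) ^ k ≤ Real.exp (y * k) := by
  rw [mul_comm, Real.exp_nat_mul]
  exact pow_le_pow_left₀ (by positivity) (by linarith [Real.add_one_le_exp y]) k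

theorem fix_lower (g h : Perm α) (n : ℕ) :
    ((fx g).card * (fx h).card).choose n ≤ fixN (Equiv.prodCongr g h : Perm (α × α)) n := by
  rw [← card_product, ← card_powersetCard]
  refine card_le_card fun W hW => ?_
  obtain ⟨h1, h2⟩ := mem_powersetCard.1 hW
  refine mem_filter.2 ⟨mem_powersetCard.2 ⟨subset_univ _, h2⟩, ?_⟩
  rintro ⟨a, b⟩ hz
  obtain ⟨ha, hb⟩ := mem_product.1 (h1 hz)
  simpa [mem_fx.1 ha, mem_fx.1 hb] using hz

/-- bound for the number of invariant sets with prescribed moved rows and columns -/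
noncomputable def Phi (n : ℕ) (m ρ : ℝ) (a b k l : ℕ) : ℝ :=
  if m ≤ a ∧ m ≤ b then ((a * b).choose n : ℝ) * (ρ * Real.exp 1) ^ (k + l)
  else m ^ n * Real.exp (2 * a + 2 * b + n)

theorem Phi_nonneg {n : ℕ} {m ρ : ℝ} (hm : 0 ≤ m) (hρ : 0 ≤ ρ) (a b k l : ℕ) :
    0 ≤ Phi n m ρ a b k l := by
  unfold Phi; split_ifs <;> positivity

theorem regime1 {n : ℕ} {m ρ : ℝ} (hm : 1 ≤ m) (h2 : 2 * (n : ℝ) ≤ m ^ 2)
    (h3 : 4 * (n : ℝ) ^ 2 * (2 / m ^ 3 + n / m ^ 4) ≤ ρ ^ 4) {a b : ℝ} (ha : m ≤ a) (hb : m ≤ b) :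
    ((n : ℝ) / (a * b - n + 1)) ^ 2 * (a + b + n) ≤ ρ ^ 4 := by
  have hn : (0 : ℝ) ≤ n := Nat.cast_nonneg n
  have hm0 : 0 < m := by linarith
  have ha0 : 0 < a := by linarith
  have hb0 : 0 < b := by linarith
  have hab : m ^ 2 ≤ a * b := by nlinarith
  have h4 : (n : ℝ) / (a * b - n + 1) ≤ 2 * n / (a * b) := by
    rw [div_le_div_iff₀ (by linarith) (by positivity)]
    nlinarith
  have h5 : ((n : ℝ) / (a * b - n + 1)) ^ 2 ≤ (2 * n / (a * b)) ^ 2 :=
    pow_le_pow_left₀ (div_nonneg hn (by linarith)) h4 2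
  refine le_trans (mul_le_mul_of_nonneg_right h5 (by positivity)) (le_trans ?_ h3)
  have e : (2 * n / (a * b)) ^ 2 * (a + b + n) =
      4 * (n : ℝ) ^ 2 * (1 / (a * b ^ 2) + 1 / (a ^ 2 * b) + n / (a ^ 2 * b ^ 2)) := by
    field_simp; ring
  rw [e]
  refine mul_le_mul_of_nonneg_left ?_ (by positivity)
  have a2 : m ^ 2 ≤ a ^ 2 := pow_le_pow_left₀ hm0.le ha 2
  have b2 : m ^ 2 ≤ b ^ 2 := pow_le_pow_left₀ hm0.le hb 2
  have e1 : 1 / (a * b ^ 2) ≤ 1 / m ^ 3 := one_div_le_one_div_of_le (by positivity) (by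
    calc m ^ 3 = m * m ^ 2 := by ring
      _ ≤ a * b ^ 2 := mul_le_mul ha b2 (by positivity) ha0.le)
  have e2 : 1 / (a ^ 2 * b) ≤ 1 / m ^ 3 := one_div_le_one_div_of_le (by positivity) (by
    calc m ^ 3 = m ^ 2 * m := by ring
      _ ≤ a ^ 2 * b := mul_le_mul a2 hb (by positivity) (by positivity))
  have e3 : (n : ℝ) / (a ^ 2 * b ^ 2) ≤ n / m ^ 4 := div_le_div_of_nonneg_left hn (by positivity) (by
    calc m ^ 4 = m ^ 2 * m ^ 2 := by ring
      _ ≤ a ^ 2 * b ^ 2 := mul_le_mul a2 b2 (by positivity) (by positivity))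
  have e4 : 2 / m ^ 3 = 1 / m ^ 3 + 1 / m ^ 3 := by ring
  linarith

/-- the standing assumptions on the parameters -/
structure Par (n : ℕ) (m ρ : ℝ) : Prop where
  hn : 1 ≤ n
  hm : 1 ≤ m
  h2 : 2 * (n : ℝ) ≤ m ^ 2
  h3 : 4 * (n : ℝ) ^ 2 * (2 / m ^ 3 + n / m ^ 4) ≤ ρ ^ 4
  hρ0 : 0 < ρ
  hρ1 : ρ * Real.exp 1 ≤ 1 / 2

theorem Par.rho_le {n : ℕ} {m ρ : ℝ} (P : Par n m ρ) : ρ ≤ 1 := by
  have h1 : 1 ≤ Real.exp 1 := Real.one_le_exp zero_le_one
  nlinarith [P.hρ0, P.hρ1]

theorem piece_bound {n : ℕ} {m ρ : ℝ} (P : Par n m ρ) (g h : Perm α) {k l : ℕ} (hk : k ≤ n)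
    (hl : l ≤ n) {K L : Finset α} (hK : K ∈ invS g k) (hL : L ∈ invS h l) :
    ((((fx g ×ˢ fx h ∪ ((fx g ∪ K) ×ˢ (fx h ∪ L)) \ (fx g ×ˢ fx h)).powersetCard n).filter
      (fun W => Inv (Equiv.prodCongr g h : Perm (α × α)) W ∧
        k + l ≤ 2 * (W \ (fx g ×ˢ fx h)).card)).card : ℝ) ≤
      Phi n m ρ (fx g).card (fx h).card k l := by
  set F := fx g ×ˢ fx h with hF
  set Y := ((fx g ∪ K) ×ˢ (fx h ∪ L)) \ F with hY
  set a := (fx g).card with ha
  set b := (fx h).card with hb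
  have hKc : K.card = k := (mem_powersetCard.1 (mem_filter.1 hK).1).2
  have hLc : L.card = l := (mem_powersetCard.1 (mem_filter.1 hL).1).2
  have hFc : F.card = a * b := card_product _ _
  have hYc : Y.card ≤ k * b + a * l + k * l := by
    have h1 : F ⊆ (fx g ∪ K) ×ˢ (fx h ∪ L) := product_subset_product subset_union_left subset_union_left
    have h2 := card_sdiff_add_card_eq_card h1
    rw [hFc, card_product, ← hY] at h2
    have h3 : (fx g ∪ K).card ≤ a + k := hKc ▸ card_union_le _ _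
    have h4 : (fx h ∪ L).card ≤ b + l := hLc ▸ card_union_le _ _
    have h5 := Nat.mul_le_mul h3 h4
    have h6 : (a + k) * (b + l) = a * b + (k * b + a * l + k * l) := by ring
    omega
  have hYr : (Y.card : ℝ) ≤ k * b + a * l + k * l := by exact_mod_cast hYc
  have hfixF : ∀ z ∈ F, (Equiv.prodCongr g h : Perm (α × α)) z = z := by
    rintro ⟨x, y⟩ hz
    obtain ⟨h1, h2⟩ := mem_product.1 hz
    simp [mem_fx.1 h1, mem_fx.1 h2]
  have hfixY : ∀ z ∈ Y, (Equiv.prodCongr g h : Perm (α × α)) z ≠ z := by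
    rintro ⟨x, y⟩ hz e
    simp only [prodCongr_apply, Prod.map_apply, Prod.mk.injEq] at e
    exact (mem_sdiff.1 hz).2 (mem_product.2 ⟨mem_fx.2 e.1, mem_fx.2 e.2⟩)
  have hkr : (k : ℝ) ≤ n := by exact_mod_cast hk
  have hlr : (l : ℝ) ≤ n := by exact_mod_cast hl
  have hk0 : (0 : ℝ) ≤ k := Nat.cast_nonneg _
  have hl0 : (0 : ℝ) ≤ l := Nat.cast_nonneg _
  have ha0 : (0 : ℝ) ≤ a := Nat.cast_nonneg _
  have hb0 : (0 : ℝ) ≤ b := Nat.cast_nonneg _
  have hn1 : (1 : ℝ) ≤ n := by exact_mod_cast P.hn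
  have hm0 : 0 < m := by linarith [P.hm]
  unfold Phi
  split_ifs with hreg
  · obtain ⟨hma, hmb⟩ := hreg
    have hab : m ^ 2 ≤ (a : ℝ) * b := by nlinarith
    have hnab : n ≤ a * b := by
      have : (n : ℝ) ≤ (a : ℝ) * b := by linarith [P.h2]
      exact_mod_cast this
    set x : ℝ := (n : ℝ) / ((a : ℝ) * b - n + 1) with hx
    have hx0 : 0 ≤ x := div_nonneg (by linarith) (by linarith [P.h2])
    have hr := regime1 P.hm P.h2 P.h3 hma hmb
    rw [← hx] at hr
    have hρ2 : 0 < ρ ^ 2 := by have := P.hρ0; positivity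
    have hxρ : x ≤ ρ ^ 2 := by
      have : x ^ 2 ≤ (ρ ^ 2) ^ 2 := by nlinarith [sq_nonneg x]
      exact (pow_le_pow_iff_left₀ hx0 hρ2.le two_ne_zero).1 this
    have hs := split _ F Y hfixF hfixY n (k + l) ((a * b).choose n : ℝ) x ρ (by positivity)
      P.hρ0 P.rho_le hx0 hxρ (by
        intro j hj
        have := choose_le_mul_pow (a * b) n hnab j hj
        rw [hFc]
        push_cast at this
        exact this)
    refine hs.trans ?_
    rw [mul_pow, mul_assoc]
    refine mul_le_mul_of_nonneg_left (mul_le_mul_of_nonneg_left ?_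
      (by have := P.hρ0; positivity)) (by positivity)
    refine (one_add_pow_le_exp (by positivity) _).trans ?_
    rw [← Real.exp_nat_mul, Real.exp_le_exp, mul_one]
    have e1 : (x / ρ ^ 2) ^ 2 * ((a : ℝ) + b + n) ≤ 1 := by
      rw [div_pow, div_mul_eq_mul_div, div_le_one (by positivity)]
      linarith
    have e2 : (Y.card : ℝ) ≤ (k + l) * ((a : ℝ) + b + n) := by nlinarith
    push_cast
    calc (x / ρ ^ 2) ^ 2 * (Y.card : ℝ) ≤ (x / ρ ^ 2) ^ 2 * ((k + l) * ((a : ℝ) + b + n)) :=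
          mul_le_mul_of_nonneg_left e2 (by positivity)
      _ = (k + l) * ((x / ρ ^ 2) ^ 2 * ((a : ℝ) + b + n)) := by ring
      _ ≤ (k + l) * 1 := mul_le_mul_of_nonneg_left e1 (by positivity)
      _ = k + l := mul_one _
  · have hx1 : 1 / m ≤ 1 := by rw [div_le_one hm0]; exact P.hm
    have hs := split _ F Y hfixF hfixY n (k + l)
      ((1 / (1 / m)) ^ n * Real.exp (1 / m * (F.card : ℝ))) (1 / m) 1 (by positivity)
      one_pos le_rfl (by positivity) (by simpa using hx1)
      (fun j hj => choose_le_crude _ n _ (by positivity) j hj)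
    refine hs.trans ?_
    simp only [one_pow, mul_one, div_one, one_div_one_div]
    rw [mul_assoc]
    refine mul_le_mul_of_nonneg_left ?_ (by positivity)
    refine (mul_le_mul_of_nonneg_left (one_add_pow_le_exp (by positivity) _) (by positivity)).trans ?_
    rw [← Real.exp_add, Real.exp_le_exp, hFc]
    have e1 : 1 / m * ((a * b : ℕ) : ℝ) ≤ a + b := by
      rw [one_div, inv_mul_le_iff₀ hm0]
      push_cast
      rcases not_and_or.1 hreg with h' | h' <;> nlinarith [not_le.1 h']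
    have e2 : (1 / m) ^ 2 * (Y.card : ℝ) ≤ a + b + n := by
      rw [div_pow, one_pow, one_div, inv_mul_le_iff₀ (by positivity)]
      have : (Y.card : ℝ) ≤ n * (a + b + n) := by nlinarith
      nlinarith [P.h2]
    linarith

theorem fix_upper {n : ℕ} {m ρ : ℝ} (P : Par n m ρ) (g h : Perm α) :
    (fixN (Equiv.prodCongr g h : Perm (α × α)) n : ℝ) ≤
      ((fx g).card * (fx h).card).choose n +
        ∑ p ∈ (range (n + 1) ×ˢ range (n + 1)).erase (0, 0),
          ((invS g p.1).card : ℝ) * ((invS h p.2).card *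
            Phi n m ρ (fx g).card (fx h).card p.1 p.2) := by
  set F := fx g ×ˢ fx h with hF
  let S : ℕ × ℕ → Finset α × Finset α → Finset (Finset (α × α)) := fun p q =>
    ((F ∪ ((fx g ∪ q.1) ×ˢ (fx h ∪ q.2)) \ F).powersetCard n).filter
      (fun W => Inv (Equiv.prodCongr g h : Perm (α × α)) W ∧ p.1 + p.2 ≤ 2 * (W \ F).card)
  have hsub : ((univ : Finset (α × α)).powersetCard n).filter (Inv (Equiv.prodCongr g h)) ⊆
      F.powersetCard n ∪ ((range (n + 1) ×ˢ range (n + 1)).erase (0, 0)).biUnion fun p =>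
        (invS g p.1 ×ˢ invS h p.2).biUnion fun q => S p q := by
    intro W hW
    obtain ⟨h1, hinv⟩ := mem_filter.1 hW
    have hc := (mem_powersetCard.1 h1).2
    set K := W.image Prod.fst \ fx g with hK
    set L := W.image Prod.snd \ fx h with hL
    by_cases hWF : W ⊆ F
    · exact mem_union_left _ (mem_powersetCard.2 ⟨hWF, hc⟩)
    refine mem_union_right _ (mem_biUnion.2 ⟨(K.card, L.card), ?_, mem_biUnion.2 ⟨(K, L), ?_, ?_⟩⟩)
    · refine mem_erase.2 ⟨?_, mem_product.2 ⟨mem_range.2 ?_, mem_range.2 ?_⟩⟩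
      · intro e
        simp only [Prod.mk.injEq, card_eq_zero] at e
        apply hWF
        rintro ⟨x, y⟩ hz
        refine mem_product.2 ⟨?_, ?_⟩
        · by_contra hx
          have : x ∈ K := mem_sdiff.2 ⟨mem_image.2 ⟨_, hz, rfl⟩, hx⟩
          rw [e.1] at this; simp at this
        · by_contra hy
          have : y ∈ L := mem_sdiff.2 ⟨mem_image.2 ⟨_, hz, rfl⟩, hy⟩
          rw [e.2] at this; simp at this
      · have : K.card ≤ W.card := (card_le_card sdiff_subset).trans card_image_le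
        simp only; omega
      · have : L.card ≤ W.card := (card_le_card sdiff_subset).trans card_image_le
        simp only; omega
    · refine mem_product.2 ⟨mem_filter.2 ⟨mem_powersetCard.2 ⟨?_, rfl⟩, ?_⟩,
        mem_filter.2 ⟨mem_powersetCard.2 ⟨?_, rfl⟩, ?_⟩⟩
      · intro x hx; exact mem_compl.2 (mem_sdiff.1 hx).2
      · intro x hx
        obtain ⟨a1, a2⟩ := mem_sdiff.1 hx
        obtain ⟨z, hz, rfl⟩ := mem_image.1 a1
        refine mem_sdiff.2 ⟨mem_image.2 ⟨_, hinv z hz, rfl⟩, fun e => a2 ?_⟩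
        exact mem_fx.2 (g.injective (mem_fx.1 e))
      · intro x hx; exact mem_compl.2 (mem_sdiff.1 hx).2
      · intro x hx
        obtain ⟨a1, a2⟩ := mem_sdiff.1 hx
        obtain ⟨z, hz, rfl⟩ := mem_image.1 a1
        refine mem_sdiff.2 ⟨mem_image.2 ⟨_, hinv z hz, rfl⟩, fun e => a2 ?_⟩
        exact mem_fx.2 (h.injective (mem_fx.1 e))
    · refine mem_filter.2 ⟨mem_powersetCard.2 ⟨?_, hc⟩, hinv, ?_⟩
      · rintro ⟨x, y⟩ hz
        by_cases hzF : (x, y) ∈ F
        · exact mem_union_left _ hzF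
        refine mem_union_right _ (mem_sdiff.2 ⟨mem_product.2 ⟨?_, ?_⟩, hzF⟩)
        · by_cases hx : x ∈ fx g
          · exact mem_union_left _ hx
          · exact mem_union_right _ (mem_sdiff.2 ⟨mem_image.2 ⟨_, hz, rfl⟩, hx⟩)
        · by_cases hy : y ∈ fx h
          · exact mem_union_left _ hy
          · exact mem_union_right _ (mem_sdiff.2 ⟨mem_image.2 ⟨_, hz, rfl⟩, hy⟩)
      · have a1 : K ⊆ (W \ F).image Prod.fst := by
          intro x hx
          obtain ⟨a1, a2⟩ := mem_sdiff.1 hx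
          obtain ⟨z, hz, rfl⟩ := mem_image.1 a1
          exact mem_image.2 ⟨z, mem_sdiff.2 ⟨hz, fun e => a2 (mem_product.1 e).1⟩, rfl⟩
        have a2 : L ⊆ (W \ F).image Prod.snd := by
          intro x hx
          obtain ⟨a1, a2⟩ := mem_sdiff.1 hx
          obtain ⟨z, hz, rfl⟩ := mem_image.1 a1
          exact mem_image.2 ⟨z, mem_sdiff.2 ⟨hz, fun e => a2 (mem_product.1 e).2⟩, rfl⟩
        have b1 := (card_le_card a1).trans card_image_le
        have b2 := (card_le_card a2).trans card_image_le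
        simp only; omega
  have h1 := (card_le_card hsub).trans ((card_union_le _ _).trans
    (Nat.add_le_add_left card_biUnion_le _))
  rw [card_powersetCard, card_product] at h1
  refine le_trans (Nat.cast_le.2 h1) ?_
  push_cast
  refine add_le_add_right (sum_le_sum fun p hp => ?_) _
  have hp' := mem_product.1 (mem_erase.1 hp).2
  refine le_trans (Nat.cast_le.2 card_biUnion_le) ?_
  push_cast
  refine (sum_le_sum fun q hq => piece_bound P g h (Nat.lt_succ_iff.1 (mem_range.1 hp'.1))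
    (Nat.lt_succ_iff.1 (mem_range.1 hp'.2)) (mem_product.1 hq).1 (mem_product.1 hq).2).trans ?_
  rw [sum_const, card_product, nsmul_eq_mul]
  push_cast
  rw [mul_assoc]

theorem fix_swap {n : ℕ} {m ρ : ℝ} (P : Par n m ρ) (g h : Perm α) :
    (fixN (Equiv.prodCongr g h * Equiv.prodComm α α : Perm (α × α)) n : ℝ) ≤
      ∑ k ∈ range (n + 1), ((((univ : Finset α).powersetCard k).filter (Inv (g * h))).card : ℝ) *
        (m ^ n * Real.exp (2 * n)) := by
  set σ : Perm (α × α) := Equiv.prodCongr g h * Equiv.prodComm α α with hσ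
  have hσa : ∀ x y, σ (x, y) = (g y, h x) := fun x y => rfl
  let F : Finset α → Finset (α × α) := fun R => (R ×ˢ R.image h).filter fun z => σ z = z
  let Y : Finset α → Finset (α × α) := fun R => (R ×ˢ R.image h).filter fun z => ¬ σ z = z
  let S : Finset α → Finset (Finset (α × α)) := fun R =>
    ((F R ∪ Y R).powersetCard n).filter (fun W => Inv σ W ∧ 0 ≤ 2 * (W \ F R).card)
  have hsub : ((univ : Finset (α × α)).powersetCard n).filter (Inv σ) ⊆
      (range (n + 1)).biUnion fun k =>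
        (((univ : Finset α).powersetCard k).filter (Inv (g * h))).biUnion S := by
    intro W hW
    obtain ⟨h1, hinv⟩ := mem_filter.1 hW
    have hc := (mem_powersetCard.1 h1).2
    refine mem_biUnion.2 ⟨(W.image Prod.fst).card, mem_range.2 ?_,
      mem_biUnion.2 ⟨W.image Prod.fst, mem_filter.2 ⟨mem_powersetCard.2 ⟨subset_univ _, rfl⟩, ?_⟩,
        mem_filter.2 ⟨mem_powersetCard.2 ⟨?_, hc⟩, hinv, Nat.zero_le _⟩⟩⟩
    · have := card_image_le (s := W) (f := Prod.fst)
      omega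
    · intro x hx
      obtain ⟨⟨x, y⟩, hz, rfl⟩ := mem_image.1 hx
      exact mem_image.2 ⟨_, hinv _ (hinv _ hz), rfl⟩
    · rintro ⟨x, y⟩ hz
      simp only [F, Y, filter_union_filter_not_eq]
      refine mem_product.2 ⟨mem_image.2 ⟨_, hz, rfl⟩, ?_⟩
      have h2 : σ (h.symm y, g.symm x) = (x, y) := by rw [hσa]; simp
      have h3 := (hinv.iff (h.symm y, g.symm x)).1 (h2 ▸ hz)
      exact mem_image.2 ⟨h.symm y, mem_image.2 ⟨_, h3, rfl⟩, by simp⟩
  have hm0 : 0 < m := by linarith [P.hm]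
  have hx1 : 1 / m ≤ 1 := by rw [div_le_one hm0]; exact P.hm
  have hn0 : (0 : ℝ) ≤ n := Nat.cast_nonneg _
  have hS : ∀ R : Finset α, R.card ≤ n → ((S R).card : ℝ) ≤ m ^ n * Real.exp (2 * n) := by
    intro R hR
    have hs := split σ (F R) (Y R) (fun z hz => (mem_filter.1 hz).2)
      (fun z hz => (mem_filter.1 hz).2) n 0
      ((1 / (1 / m)) ^ n * Real.exp (1 / m * ((F R).card : ℝ))) (1 / m) 1 (by positivity)
      one_pos le_rfl (by positivity) (by simpa using hx1)
      (fun j hj => choose_le_crude _ n _ (by positivity) j hj)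
    refine hs.trans ?_
    simp only [one_pow, mul_one, div_one, one_div_one_div]
    rw [mul_assoc]
    refine mul_le_mul_of_nonneg_left ?_ (by positivity)
    refine (mul_le_mul_of_nonneg_left (one_add_pow_le_exp (by positivity) _) (by positivity)).trans ?_
    rw [← Real.exp_add, Real.exp_le_exp]
    have a1 : (F R).card ≤ R.card := by
      refine card_le_card_of_injOn Prod.fst ?_ ?_
      · intro z hz
        exact mem_coe.2 (mem_product.1 (mem_filter.1 (mem_coe.1 hz)).1).1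
      · rintro ⟨x, y⟩ hz ⟨x', y'⟩ hz' e
        have b1 := (mem_filter.1 (mem_coe.1 hz)).2
        have b2 := (mem_filter.1 (mem_coe.1 hz')).2
        rw [hσa] at b1 b2
        simp only [Prod.mk.injEq] at b1 b2 e ⊢
        exact ⟨e, by rw [← b1.2, ← b2.2, e]⟩
    have a2 : (Y R).card ≤ n * n := by
      refine (card_filter_le _ _).trans ?_
      rw [card_product]
      exact Nat.mul_le_mul hR (card_image_le.trans hR)
    have a3 : ((F R).card : ℝ) ≤ n := by exact_mod_cast a1.trans hR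
    have a4 : ((Y R).card : ℝ) ≤ n * n := by exact_mod_cast a2
    have e1 : 1 / m * ((F R).card : ℝ) ≤ n := by
      have : (0 : ℝ) ≤ (F R).card := Nat.cast_nonneg _
      nlinarith
    have e2 : (1 / m) ^ 2 * ((Y R).card : ℝ) ≤ n := by
      rw [div_pow, one_pow, one_div, inv_mul_le_iff₀ (by positivity)]
      nlinarith [P.h2]
    linarith
  have h1 := (card_le_card hsub).trans card_biUnion_le
  refine le_trans (Nat.cast_le.2 h1) ?_
  push_cast
  refine sum_le_sum fun k hk => ?_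
  refine le_trans (Nat.cast_le.2 card_biUnion_le) ?_
  push_cast
  refine (sum_le_sum fun R hR => hS R ?_).trans ?_
  · rw [(mem_powersetCard.1 (mem_filter.1 hR).1).2]
    exact Nat.lt_succ_iff.1 (mem_range.1 hk)
  · rw [sum_const, nsmul_eq_mul]

end Pool.Agent.Lib.MP_cfcaf3_co
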