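import Mathlib
import Pool.Agent.Lib.MP_cfcaf3_co.Defs
import Pool.Agent.Lib.MP_cfcaf3_co.Fix

namespace Pool.Agent.Lib.MP_cfcaf3_co

open Finset Equiv
open scoped Pointwise

section ext

variable {α Ω : Type} [Fintype α] (ι : α ↪ Ω)

theorem ext_up (g : Perm α) : ∃ g' : Perm Ω, ∀ a, g' (ι a) = ι (g a) :=
  Perm.exists_extending_pair ι (fun a => ι (g a)) ι.injective (ι.injective.comp g.injective)

theorem ext_down (g' : Perm Ω) (R : Finset α) (h : ∀ a ∈ R, g' (ι a) ∈ Set.range ι) :
    ∃ g : Perm α, ∀ a ∈ R, ι (g a) = g' (ι a) := by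
  choose k hk using h
  obtain ⟨g, hg⟩ := Perm.exists_extending_pair (α := {a // a ∈ R}) (f := Subtype.val)
    (g := fun a => k a.1 a.2) Subtype.val_injective (by
      intro a b e
      apply Subtype.ext
      apply ι.injective
      apply g'.injective
      rw [← hk a.1 a.2, ← hk b.1 b.2]
      exact congrArg ι e)
  exact ⟨g, fun a ha => by rw [hg ⟨a, ha⟩, hk]⟩

theorem move_in (R : Finset Ω) (h : R.card ≤ Fintype.card α) :
    ∃ g' : Perm Ω, ∀ x ∈ R, g' x ∈ Set.range ι := by
  obtain ⟨e⟩ := Function.Embedding.nonempty_of_card_le (α := {x // x ∈ R}) (β := α) (by simpa using h)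
  obtain ⟨g, hg⟩ := Perm.exists_extending_pair (α := {x // x ∈ R}) (f := Subtype.val)
    (g := fun x => ι (e x)) Subtype.val_injective (ι.injective.comp e.injective)
  exact ⟨g, fun x hx => ⟨e ⟨x, hx⟩, (hg ⟨x, hx⟩).symm⟩⟩

end ext

theorem mem_wreath {α : Type} {σ : Perm (α × α)} : σ ∈ wreath α ↔
    ∃ g h : Perm α, σ = Equiv.prodCongr g h ∨ σ = Equiv.prodCongr g h * Equiv.prodComm α α := by
  let H : Subgroup (Perm (α × α)) :=
    { carrier := {σ | ∃ g h : Perm α,
        σ = Equiv.prodCongr g h ∨ σ = Equiv.prodCongr g h * Equiv.prodComm α α}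
      mul_mem' := by
        rintro _ _ ⟨g, h, rfl | rfl⟩ ⟨g', h', rfl | rfl⟩
        · exact ⟨g * g', h * h', Or.inl (Equiv.ext fun _ => rfl)⟩
        · exact ⟨g * g', h * h', Or.inr (Equiv.ext fun _ => rfl)⟩
        · exact ⟨g * h', h * g', Or.inr (Equiv.ext fun _ => rfl)⟩
        · exact ⟨g * h', h * g', Or.inl (Equiv.ext fun _ => rfl)⟩
      one_mem' := ⟨1, 1, Or.inl (Equiv.ext fun _ => rfl)⟩
      inv_mem' := by
        rintro _ ⟨g, h, rfl | rfl⟩
        · exact ⟨g⁻¹, h⁻¹, Or.inl (Equiv.ext fun _ => rfl)⟩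
        · exact ⟨h⁻¹, g⁻¹, Or.inr (Equiv.ext fun _ => rfl)⟩ }
  constructor
  · intro h
    have : wreath α ≤ H := by
      rw [wreath, Subgroup.closure_le]
      rintro τ (⟨g, h, rfl⟩ | rfl)
      · exact ⟨g, h, Or.inl rfl⟩
      · exact ⟨1, 1, Or.inr (Equiv.ext fun _ => rfl)⟩
    exact this h
  · rintro ⟨g, h, rfl | rfl⟩
    · exact Subgroup.subset_closure (Or.inl ⟨g, h, rfl⟩)
    · exact Subgroup.mul_mem _ (Subgroup.subset_closure (Or.inl ⟨g, h, rfl⟩))
        (Subgroup.subset_closure (Or.inr rfl))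

theorem rel_iff {X : Type} [DecidableEq X] (G : Subgroup (Perm X)) {n : ℕ}
    (W W' : Set.powersetCard X n) :
    MulAction.orbitRel G (Set.powersetCard X n) W W' ↔
      ∃ σ ∈ G, (W' : Finset X).image σ = W := by
  rw [MulAction.orbitRel_apply, MulAction.mem_orbit_iff]
  constructor
  · rintro ⟨σ, rfl⟩
    exact ⟨σ.1, σ.2, rfl⟩
  · rintro ⟨σ, hσ, h⟩
    exact ⟨⟨σ, hσ⟩, Subtype.ext h⟩

theorem transfer {α Ω : Type} [Fintype α] [DecidableEq α] [DecidableEq Ω] (ι : α ↪ Ω) (n : ℕ)
    (hn : n ≤ Fintype.card α) :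
    orbitCount (wreath Ω) (Ω × Ω) n = orbitCount (wreath α) (α × α) n := by
  let φ : Set.powersetCard (α × α) n → Set.powersetCard (Ω × Ω) n := fun W =>
    ⟨W.1.map (ι.prodMap ι), by rw [Set.powersetCard.mem_iff, card_map]; exact W.2⟩
  have hiff : ∀ W W', MulAction.orbitRel (wreath α) (Set.powersetCard (α × α) n) W W' ↔
      MulAction.orbitRel (wreath Ω) (Set.powersetCard (Ω × Ω) n) (φ W) (φ W') := by
    intro W W'
    rw [rel_iff, rel_iff]
    have key : ∀ (σ : Perm (α × α)) (σ' : Perm (Ω × Ω)),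
        (∀ z ∈ W'.1, σ' (ι.prodMap ι z) = ι.prodMap ι (σ z)) →
        ((W'.1.image σ = W.1) ↔ (φ W').1.image σ' = (φ W).1) := by
      intro σ σ' h
      have e : (φ W').1.image σ' = (W'.1.image σ).map (ι.prodMap ι) := by
        simp only [φ, map_eq_image, image_image]
        exact image_congr fun z hz => h z hz
      rw [e]
      exact (map_inj (f := ι.prodMap ι)).symm
    constructor
    · rintro ⟨σ, hσ, h⟩
      obtain ⟨g, k, rfl | rfl⟩ := mem_wreath.1 hσ
      · obtain ⟨g', hg⟩ := ext_up ι g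
        obtain ⟨k', hk⟩ := ext_up ι k
        refine ⟨Equiv.prodCongr g' k', mem_wreath.2 ⟨g', k', Or.inl rfl⟩, (key _ _ ?_).1 h⟩
        rintro ⟨x, y⟩ -
        exact Prod.ext (hg x) (hk y)
      · obtain ⟨g', hg⟩ := ext_up ι g
        obtain ⟨k', hk⟩ := ext_up ι k
        refine ⟨Equiv.prodCongr g' k' * Equiv.prodComm Ω Ω, mem_wreath.2 ⟨g', k', Or.inr rfl⟩,
          (key _ _ ?_).1 h⟩
        rintro ⟨x, y⟩ -
        exact Prod.ext (hg y) (hk x)
    · rintro ⟨σ', hσ, h⟩
      have hin : ∀ z ∈ W'.1, (σ' (ι.prodMap ι z)).1 ∈ Set.range ι ∧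
          (σ' (ι.prodMap ι z)).2 ∈ Set.range ι := by
        intro z hz
        have h1 : σ' (ι.prodMap ι z) ∈ (φ W).1 := by
          rw [← h]; exact mem_image_of_mem _ (mem_map_of_mem _ hz)
        obtain ⟨w, -, hw⟩ := mem_map.1 h1
        rw [← hw]
        exact ⟨⟨w.1, rfl⟩, ⟨w.2, rfl⟩⟩
      obtain ⟨g', k', rfl | rfl⟩ := mem_wreath.1 hσ
      · obtain ⟨g, hg⟩ := ext_down ι g' (W'.1.image Prod.fst) (by
          intro a ha
          obtain ⟨z, hz, rfl⟩ := mem_image.1 ha
          exact (hin z hz).1)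
        obtain ⟨k, hk⟩ := ext_down ι k' (W'.1.image Prod.snd) (by
          intro a ha
          obtain ⟨z, hz, rfl⟩ := mem_image.1 ha
          exact (hin z hz).2)
        refine ⟨Equiv.prodCongr g k, mem_wreath.2 ⟨g, k, Or.inl rfl⟩, (key _ _ ?_).2 h⟩
        intro z hz
        exact Prod.ext (hg _ (mem_image_of_mem _ hz)).symm (hk _ (mem_image_of_mem _ hz)).symm
      · obtain ⟨g, hg⟩ := ext_down ι g' (W'.1.image Prod.snd) (by
          intro a ha
          obtain ⟨z, hz, rfl⟩ := mem_image.1 ha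
          exact (hin z hz).1)
        obtain ⟨k, hk⟩ := ext_down ι k' (W'.1.image Prod.fst) (by
          intro a ha
          obtain ⟨z, hz, rfl⟩ := mem_image.1 ha
          exact (hin z hz).2)
        refine ⟨Equiv.prodCongr g k * Equiv.prodComm α α, mem_wreath.2 ⟨g, k, Or.inr rfl⟩,
          (key _ _ ?_).2 h⟩
        intro z hz
        exact Prod.ext (hg _ (mem_image_of_mem _ hz)).symm (hk _ (mem_image_of_mem _ hz)).symm
  symm
  refine Nat.card_eq_of_bijective (Quotient.map φ fun W W' h => (hiff W W').1 h) ⟨?_, ?_⟩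
  · intro q q'
    induction q using Quotient.inductionOn
    induction q' using Quotient.inductionOn
    intro h
    exact Quotient.sound ((hiff _ _).2 (Quotient.exact h))
  · intro q
    induction q using Quotient.inductionOn with
    | _ V =>
    have hV : V.1.card = n := V.2
    obtain ⟨g, hg⟩ := move_in ι (V.1.image Prod.fst) (card_image_le.trans (hV.le.trans hn))
    obtain ⟨k, hk⟩ := move_in ι (V.1.image Prod.snd) (card_image_le.trans (hV.le.trans hn))
    let σ : Perm (Ω × Ω) := Equiv.prodCongr g k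
    have hsub : ∀ z ∈ V.1.image σ, z ∈ Set.range (ι.prodMap ι) := by
      intro z hz
      obtain ⟨w, hw, rfl⟩ := mem_image.1 hz
      obtain ⟨a, ha⟩ := hg _ (mem_image_of_mem _ hw)
      obtain ⟨b, hb⟩ := hk _ (mem_image_of_mem _ hw)
      exact ⟨(a, b), Prod.ext ha hb⟩
    let W0 : Finset (α × α) := (V.1.image σ).preimage (ι.prodMap ι) (ι.prodMap ι).injective.injOn
    have hW0 : W0.map (ι.prodMap ι) = V.1.image σ := by
      ext z
      simp only [W0, mem_map, mem_preimage]
      constructor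
      · rintro ⟨w, hw, rfl⟩; exact hw
      · intro hz
        obtain ⟨w, rfl⟩ := hsub z hz
        exact ⟨w, hz, rfl⟩
    have hc : W0.card = n := by
      rw [← card_map (ι.prodMap ι), hW0, card_image_of_injective _ σ.injective, hV]
    refine ⟨Quotient.mk _ ⟨W0, hc⟩, Quotient.sound ?_⟩
    exact (rel_iff _ _ _).2 ⟨σ, mem_wreath.2 ⟨g, k, Or.inl rfl⟩, hW0.symm⟩

theorem burnside_gen {X : Type} [Fintype X] [DecidableEq X] (G : Subgroup (Perm X)) [Fintype G]
    (n : ℕ) : orbitCount G X n * Fintype.card G = ∑ σ : G, fixN σ.1 n := by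
  classical
  have : Fintype (Set.powersetCard X n) := Fintype.ofFinite _
  have : Fintype (MulAction.orbitRel.Quotient G (Set.powersetCard X n)) := Fintype.ofFinite _
  have h := MulAction.sum_card_fixedBy_eq_card_orbits_mul_card_group G (Set.powersetCard X n)
  rw [← Nat.card_eq_fintype_card (α := Quotient _)] at h
  refine h.symm.trans ?_
  refine sum_congr rfl fun σ _ => ?_
  rw [fixN, ← Fintype.card_coe]
  refine Fintype.card_congr ⟨fun W => ⟨W.1.1, ?_⟩, fun W => ⟨⟨W.1, ?_⟩, ?_⟩, fun _ => rfl, fun _ => rfl⟩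
  · refine mem_filter.2 ⟨mem_powersetCard.2 ⟨subset_univ _, W.1.2⟩, fun x hx => ?_⟩
    have h1 : W.1.1.image σ.1 = W.1.1 := congrArg Subtype.val W.2
    rw [← h1]
    exact mem_image_of_mem _ hx
  · exact (mem_powersetCard.1 (mem_filter.1 W.2).1).2
  · apply Subtype.ext
    change W.1.image σ.1 = W.1
    refine eq_of_subset_of_card_le ?_ (card_image_of_injective _ σ.1.injective).ge
    intro z hz
    obtain ⟨x, hx, rfl⟩ := mem_image.1 hz
    exact (mem_filter.1 W.2).2 x hx

theorem burnside {α : Type} [Fintype α] [DecidableEq α] [Nontrivial α] (n : ℕ) :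
    orbitCount (wreath α) (α × α) n * (2 * (Fintype.card α).factorial ^ 2) =
      ∑ g : Perm α, ∑ h : Perm α, fixN (Equiv.prodCongr g h : Perm (α × α)) n +
      ∑ g : Perm α, ∑ h : Perm α,
        fixN (Equiv.prodCongr g h * Equiv.prodComm α α : Perm (α × α)) n := by
  classical
  let e : (Perm α × Perm α) ⊕ (Perm α × Perm α) → wreath α := fun s =>
    match s with
    | Sum.inl p => ⟨Equiv.prodCongr p.1 p.2, mem_wreath.2 ⟨_, _, Or.inl rfl⟩⟩
    | Sum.inr p => ⟨Equiv.prodCongr p.1 p.2 * Equiv.prodComm α α, mem_wreath.2 ⟨_, _, Or.inr rfl⟩⟩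
  have hne : ∀ p q : Perm α × Perm α, e (Sum.inl p) ≠ e (Sum.inr q) := by
    intro p q h
    obtain ⟨x, y, hxy⟩ := exists_pair_ne α
    have h1 : p.1 x = q.1 x := congrArg (fun σ : wreath α => (σ.1 (x, x)).1) h
    have h2 : p.1 y = q.1 x := congrArg (fun σ : wreath α => (σ.1 (y, x)).1) h
    exact hxy (p.1.injective (h1.trans h2.symm))
  have he : Function.Bijective e := by
    constructor
    · rintro (p | p) (q | q) h
      · congr 1
        exact Prod.ext
          (Equiv.ext fun x => congrArg (fun σ : wreath α => (σ.1 (x, x)).1) h)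
          (Equiv.ext fun x => congrArg (fun σ : wreath α => (σ.1 (x, x)).2) h)
      · exact absurd h (hne p q)
      · exact absurd h.symm (hne q p)
      · congr 1
        exact Prod.ext
          (Equiv.ext fun x => congrArg (fun σ : wreath α => (σ.1 (x, x)).1) h)
          (Equiv.ext fun x => congrArg (fun σ : wreath α => (σ.1 (x, x)).2) h)
    · rintro ⟨σ, hσ⟩
      obtain ⟨g, h, rfl | rfl⟩ := mem_wreath.1 hσ
      · exact ⟨Sum.inl (g, h), rfl⟩
      · exact ⟨Sum.inr (g, h), rfl⟩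
  have : Fintype (wreath α) := Fintype.ofFinite _
  have hcard : Fintype.card (wreath α) = 2 * (Fintype.card α).factorial ^ 2 := by
    rw [← Fintype.card_of_bijective he]
    simp [Fintype.card_perm]
    ring
  rw [← hcard, burnside_gen, ← Fintype.sum_bijective e he (fun s => fixN (e s).1 n) _ fun _ => rfl,
    Fintype.sum_sum_type, Fintype.sum_prod_type, Fintype.sum_prod_type]

end Pool.Agent.Lib.MP_cfcaf3_co
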