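import Mathlib

namespace Pool.Agent.Lib.MP_cfcaf3_co

open Filter Topology Set MeasureTheory Real

/-- Poisson weights -/
noncomputable def poi (μ : ℝ) (m : ℕ) : ℝ := exp (-μ) * (μ ^ m / m.factorial)

/-- the tilting factor -/
noncomputable def phi (u : ℝ) : ℝ := (1 + u) * exp (-u)

/-- normalised terms of the Dobinski sum -/
noncomputable def qq (r : ℝ) (n m : ℕ) : ℝ := poi (exp r) m * phi ((m - exp r) / exp r) ^ n

theorem poi_nonneg {μ : ℝ} (h : 0 ≤ μ) (m : ℕ) : 0 ≤ poi μ m := by unfold poi; positivity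

theorem hasSum_poi (μ : ℝ) : HasSum (poi μ) 1 := by
  have h := (NormedSpace.expSeries_div_hasSum_exp μ).mul_left (exp (-μ))
  rw [← Real.exp_eq_exp_ℝ, ← Real.exp_add, neg_add_cancel, Real.exp_zero] at h
  exact h

theorem phi_nonneg {u : ℝ} (h : -1 ≤ u) : 0 ≤ phi u :=
  mul_nonneg (by linarith) (exp_pos _).le

theorem phi_eq {u : ℝ} (h : -1 < u) : phi u = exp (log (1 + u) - u) := by
  rw [phi, sub_eq_add_neg, exp_add, exp_log (by linarith)]

theorem phi_le {u : ℝ} (h : -1 ≤ u) : phi u ≤ exp (-(u ^ 2 / (2 * (1 + |u|)))) := by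
  rcases h.eq_or_lt with rfl | h
  · simp [phi]; positivity
  rw [phi_eq h, exp_le_exp]
  have h1 : 0 < 1 + u := by linarith
  rcases le_or_gt 0 u with hu | hu
  · have h2 := self_le_sinh_iff.2 (log_nonneg (by linarith : 1 ≤ 1 + u))
    rw [sinh_log h1] at h2
    rw [abs_of_nonneg hu]
    have : (1 + u - (1 + u)⁻¹) / 2 - u = -(u ^ 2 / (2 * (1 + u))) := by field_simp; ring
    linarith
  · have h2 := le_log_one_add_of_nonneg (x := -u / (1 + u)) (div_nonneg (by linarith) h1.le)
    have e1 : 1 + -u / (1 + u) = (1 + u)⁻¹ := by field_simp; ring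
    have h3 : 0 < 2 + u := by linarith
    have e2 : 2 * (-u / (1 + u)) / (-u / (1 + u) + 2) = -(2 * u) / (2 + u) := by
      have : -u / (1 + u) + 2 = (2 + u) / (1 + u) := by field_simp; ring
      rw [this]; field_simp
    rw [e1, log_inv, e2] at h2
    have e3 : u ^ 2 / (2 * (1 + |u|)) ≤ u ^ 2 / (2 + u) :=
      div_le_div_of_nonneg_left (sq_nonneg _) h3 (by linarith [abs_nonneg u])
    have e4 : u ^ 2 / (2 + u) = u + -(2 * u) / (2 + u) := by field_simp; ring
    linarith

theorem phi_le_one {u : ℝ} (h : -1 ≤ u) : phi u ≤ 1 :=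
  (phi_le h).trans (exp_le_one_iff.2 (neg_nonpos.2 (by positivity)))

theorem uu_ge (r : ℝ) (m : ℕ) : -1 ≤ ((m : ℝ) - exp r) / exp r := by
  rw [le_div_iff₀ (exp_pos r)]
  have : (0 : ℝ) ≤ m := Nat.cast_nonneg m
  linarith

theorem qq_nonneg (r : ℝ) (n m : ℕ) : 0 ≤ qq r n m :=
  mul_nonneg (poi_nonneg (exp_pos r).le m) (pow_nonneg (phi_nonneg (uu_ge r m)) n)

theorem qq_le (r : ℝ) (n m : ℕ) : qq r n m ≤ poi (exp r) m :=
  mul_le_of_le_one_right (poi_nonneg (exp_pos r).le m)
    (pow_le_one₀ (phi_nonneg (uu_ge r m)) (phi_le_one (uu_ge r m)))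

theorem summable_qq (r : ℝ) (n : ℕ) : Summable (qq r n) :=
  (hasSum_poi _).summable.of_nonneg_of_le (qq_nonneg r n) (qq_le r n)

theorem qq_tail (r : ℝ) (n m : ℕ) {δ : ℝ} (h0 : 0 ≤ δ) (h1 : δ ≤ 1)
    (h : δ ≤ |((m : ℝ) - exp r) / exp r|) :
    qq r n m ≤ exp (-(n * δ ^ 2 / 4)) * poi (exp r) m := by
  rw [qq, mul_comm]
  refine mul_le_mul_of_nonneg_right ?_ (poi_nonneg (exp_pos r).le m)
  refine (pow_le_pow_left₀ (phi_nonneg (uu_ge r m)) (phi_le (uu_ge r m)) n).trans ?_
  rw [← exp_nat_mul, exp_le_exp, ← sq_abs (_ / _)]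
  generalize |((m : ℝ) - exp r) / exp r| = v at h
  have h2 : δ ^ 2 / 4 ≤ v ^ 2 / (2 * (1 + v)) := by
    rw [div_le_div_iff₀ (by norm_num) (by linarith)]
    have h3 : δ ^ 2 ≤ v ^ 2 := pow_le_pow_left₀ h0 h 2
    have h4 : δ ^ 2 * v ≤ v ^ 2 := by
      have : δ ^ 2 ≤ v := by nlinarith
      nlinarith
    nlinarith
  have h5 : (0 : ℝ) ≤ n := Nat.cast_nonneg n
  nlinarith

theorem pow_div_eq {r : ℝ} {n : ℕ} (h : r * exp r = n) (m : ℕ) :
    (m : ℝ) ^ n / m.factorial = exp (n * r - n + exp r) * qq r n m := by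
  have hμ := exp_pos r
  have e1 : 1 + ((m : ℝ) - exp r) / exp r = m * exp (-r) := by rw [exp_neg]; field_simp; ring
  have e2 : (n : ℝ) * -(((m : ℝ) - exp r) / exp r) = -(m * r) + n := by
    rw [← h]; field_simp; ring
  rw [qq, poi, phi, e1, mul_pow, mul_pow, ← exp_nat_mul, ← exp_nat_mul, ← exp_nat_mul, e2]
  have e3 : exp (n * r - n + exp r) * exp (-exp r) * exp (m * r) * exp (n * -r) *
      exp (-(m * r) + n) = 1 := by
    simp only [← exp_add]
    rw [← exp_zero]; congr 1; ring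
  linear_combination -((m : ℝ) ^ n / m.factorial) * e3

theorem poi_stirling {μ : ℝ} (hμ : 0 < μ) {m : ℕ} (hm : m ≠ 0) :
    √μ * poi μ m = (1 / Stirling.stirlingSeq m) * √(μ / (2 * m)) *
      exp (m - μ - m * log (m / μ)) := by
  have hm0 : (0 : ℝ) < m := by positivity
  have hs : 0 < Stirling.stirlingSeq m :=
    lt_of_lt_of_le (by positivity) (Stirling.sqrt_pi_le_stirlingSeq hm)
  have e0 : (m.factorial : ℝ) = Stirling.stirlingSeq m * (√(2 * m) * (m / exp 1) ^ m) := by
    rw [Stirling.stirlingSeq]; field_simp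
  have e1 : exp (m * log (m / μ)) = (m / μ) ^ m := by
    rw [exp_nat_mul, exp_log (by positivity)]
  rw [poi, e0, sqrt_div hμ.le, exp_sub, exp_sub, e1, div_pow, div_pow, ← exp_nat_mul, mul_one,
    exp_neg]
  field_simp

theorem poi_le_of_ge {μ : ℝ} (hμ : 0 < μ) {m : ℕ} (hm : m ≠ 0) (h : μ ≤ 2 * m) :
    √μ * poi μ m ≤ 1 := by
  have hm0 : (0 : ℝ) < m := by positivity
  rw [poi_stirling hμ hm]
  have h1 : 1 / Stirling.stirlingSeq m ≤ 1 := by
    have h2 : (1 : ℝ) ≤ √π := by rw [one_le_sqrt]; linarith [pi_gt_three]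
    have h3 := Stirling.sqrt_pi_le_stirlingSeq hm
    rw [div_le_one (by linarith)]; linarith
  have h2 : √(μ / (2 * m)) ≤ 1 := by
    rw [sqrt_le_one, div_le_one (by positivity)]; exact h
  have h3 : exp (m - μ - m * log (m / μ)) ≤ 1 := by
    rw [exp_le_one_iff]
    have := one_sub_inv_le_log_of_pos (x := m / μ) (by positivity)
    have h4 := mul_le_mul_of_nonneg_left this hm0.le
    have : (m : ℝ) * (1 - (m / μ)⁻¹) = m - μ := by field_simp
    linarith
  exact mul_le_one₀ (mul_le_one₀ h1 (sqrt_nonneg _) h2) (exp_pos _).le h3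

theorem poi_le {μ : ℝ} (hμ : 1 ≤ μ) (m : ℕ) : √μ * poi μ m ≤ 1 := by
  have hμ0 : 0 < μ := by linarith
  have hf : 1 ≤ ⌊μ⌋₊ := Nat.le_floor (by exact_mod_cast hμ)
  have hfr : (1 : ℝ) ≤ ⌊μ⌋₊ := by exact_mod_cast hf
  have hlt := Nat.lt_floor_add_one μ
  rcases le_or_gt ⌊μ⌋₊ m with h | h
  · have : (⌊μ⌋₊ : ℝ) ≤ m := by exact_mod_cast h
    exact poi_le_of_ge hμ0 (by omega) (by linarith)
  · refine le_trans (mul_le_mul_of_nonneg_left ?_ (sqrt_nonneg _))
      (poi_le_of_ge hμ0 (m := ⌊μ⌋₊) (by omega) (by linarith))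
    have hstep : ∀ k : ℕ, k + 1 ≤ ⌊μ⌋₊ → poi μ k ≤ poi μ (k + 1) := by
      intro k hk
      have h1 : (k : ℝ) + 1 ≤ μ := by
        have : ((k + 1 : ℕ) : ℝ) ≤ ⌊μ⌋₊ := by exact_mod_cast hk
        push_cast at this
        linarith [Nat.floor_le hμ0.le]
      have e : poi μ (k + 1) = poi μ k * (μ / (k + 1)) := by
        rw [poi, poi, Nat.factorial_succ, pow_succ]; push_cast; field_simp
      rw [e]
      exact le_mul_of_one_le_right (poi_nonneg hμ0.le k) ((one_le_div (by positivity)).2 h1)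
    have : ∀ j, m + j ≤ ⌊μ⌋₊ → poi μ m ≤ poi μ (m + j) := by
      intro j
      induction j with
      | zero => intro _; exact le_rfl
      | succ j ih => intro hj; exact (ih (by omega)).trans (hstep (m + j) (by omega))
    have h2 := this (⌊μ⌋₊ - m) (by omega)
    rwa [Nat.add_sub_cancel' h.le] at h2

theorem step_integral (G : ℕ → ℝ) (h0 : ∀ m, 0 ≤ G m) (hG : Summable G) :
    ∫ y : ℝ, (Ici (0 : ℝ)).indicator (fun y => G ⌊y⌋₊) y = ∑' m, G m := by
  have hU : Ici (0 : ℝ) = ⋃ m : ℕ, Ico (m : ℝ) (m + 1) := by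
    ext y
    simp only [mem_Ici, mem_iUnion, mem_Ico]
    exact ⟨fun hy => ⟨⌊y⌋₊, Nat.floor_le hy, Nat.lt_floor_add_one y⟩,
      fun ⟨m, hm, _⟩ => le_trans (Nat.cast_nonneg m) hm⟩
  have heq : ∀ m : ℕ, EqOn (fun y : ℝ => G ⌊y⌋₊) (fun _ => G m) (Ico (m : ℝ) (m + 1)) := by
    intro m y hy
    simp only
    rw [(Nat.floor_eq_iff (le_trans (Nat.cast_nonneg m) hy.1)).2 hy]
  have hint : ∀ m : ℕ, IntegrableOn (fun y : ℝ => G ⌊y⌋₊) (Ico (m : ℝ) (m + 1)) := fun m =>
    (integrableOn_congr_fun (heq m) measurableSet_Ico).2 (integrableOn_const (by simp))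
  have hval : ∀ m : ℕ, ∫ y in Ico (m : ℝ) (m + 1), G ⌊y⌋₊ = G m := by
    intro m
    rw [setIntegral_congr_fun measurableSet_Ico (heq m)]
    simp
  have hdisj : Pairwise (Function.onFun Disjoint fun m : ℕ => Ico (m : ℝ) (m + 1)) := by
    intro i j hij
    rw [Function.onFun, Set.disjoint_left]
    intro y hi hj
    exact hij (((Nat.floor_eq_iff (le_trans (Nat.cast_nonneg i) hi.1)).2 hi).symm.trans
      ((Nat.floor_eq_iff (le_trans (Nat.cast_nonneg j) hj.1)).2 hj))
  rw [integral_indicator measurableSet_Ici, hU]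
  have h := hasSum_integral_iUnion (fun m : ℕ => measurableSet_Ico) hdisj
    (integrableOn_iUnion_of_summable_integral_norm hint (by
      simp only [Real.norm_of_nonneg (h0 _), hval]; exact hG))
  simp only [hval] at h
  exact h.tsum_eq.symm

section lim

variable {r : ℕ → ℝ} {ν : ℕ → ℕ} (hν : ∀ k, r k * exp (r k) = ν k) (hr : Tendsto r atTop atTop)

include hr in
theorem tendsto_pow_div_exp (j : ℕ) : Tendsto (fun k => r k ^ j / exp (r k)) atTop (𝓝 0) := by
  have := (tendsto_pow_mul_exp_neg_atTop_nhds_zero j).comp hr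
  refine this.congr fun k => ?_
  simp [exp_neg, div_eq_mul_inv]

include hν hr in
theorem nu_tendsto : Tendsto (fun k => (ν k : ℝ)) atTop atTop := by
  simp only [← hν]
  exact hr.atTop_mul_atTop₀ (tendsto_exp_atTop.comp hr)

include hν hr in
theorem local_limit (m : ℕ → ℕ) (t : ℝ)
    (hw : Tendsto (fun k => ((m k : ℝ) - exp (r k)) / exp (r k) * √(ν k)) atTop (𝓝 t)) :
    Tendsto (fun k => √(exp (r k)) * qq (r k) (ν k) (m k)) atTop
      (𝓝 (1 / √π * √(1 / 2) * exp (-(1 / 2) * t ^ 2))) := by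
  set u : ℕ → ℝ := fun k => ((m k : ℝ) - exp (r k)) / exp (r k) with hu
  have hn := nu_tendsto hν hr
  have hsq : Tendsto (fun k => √(ν k : ℝ)) atTop atTop := tendsto_sqrt_atTop.comp hn
  have hnpos : ∀ᶠ k in atTop, (0 : ℝ) < ν k := hn.eventually_gt_atTop 0
  have hu0 : Tendsto u atTop (𝓝 0) := by
    refine (hw.div_atTop hsq).congr' ?_
    filter_upwards [hnpos] with k hk
    have : √(ν k : ℝ) ≠ 0 := by positivity
    rw [mul_div_cancel_right₀ _ this]
  have hnu2 : Tendsto (fun k => (ν k : ℝ) * u k ^ 2) atTop (𝓝 (t ^ 2)) := by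
    refine (hw.pow 2).congr fun k => ?_
    rw [mul_pow, sq_sqrt (Nat.cast_nonneg _), mul_comm]
  have hsmall : ∀ᶠ k in atTop, |u k| ≤ 1 / 2 := by
    have := hu0.abs
    rw [abs_zero] at this
    exact this.eventually (ge_mem_nhds (by norm_num))
  have hmu : ∀ k, (m k : ℝ) = exp (r k) * (1 + u k) := by
    intro k; simp only [hu]; field_simp; ring
  have hmtop : Tendsto (fun k => (m k : ℝ)) atTop atTop := by
    simp only [hmu]
    refine (tendsto_exp_atTop.comp hr).atTop_mul_pos (C := 1) one_pos ?_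
    simpa using hu0.const_add 1
  have hm' : Tendsto m atTop atTop := tendsto_natCast_atTop_iff.1 hmtop
  -- the tilting factor
  have hA : Tendsto (fun k => phi (u k) ^ ν k) atTop (𝓝 (exp (-(1 / 2) * t ^ 2))) := by
    have h1 : Tendsto (fun k => (ν k : ℝ) * (log (1 + u k) - u k + u k ^ 2 / 2)) atTop (𝓝 0) := by
      have h2 : Tendsto (fun k => 2 * ((ν k : ℝ) * u k ^ 2) * |u k|) atTop (𝓝 0) := by
        simpa using (hnu2.const_mul 2).mul hu0.abs
      refine squeeze_zero_norm' ?_ h2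
      filter_upwards [hsmall] with k hk
      have h3 := abs_log_sub_add_sum_range_le (x := -u k) (by rw [abs_neg]; linarith) 2
      simp only [Finset.sum_range_succ, Finset.range_zero, Finset.sum_empty, abs_neg,
        sub_neg_eq_add] at h3
      have e : (0 + (-u k) ^ (0 + 1) / (((0 : ℕ) : ℝ) + 1) + (-u k) ^ (1 + 1) / (((1 : ℕ) : ℝ) + 1) +
          log (1 + u k)) = log (1 + u k) - u k + u k ^ 2 / 2 := by push_cast; ring
      rw [e] at h3
      have h4 : |u k| ^ (2 + 1) / (1 - |u k|) ≤ 2 * u k ^ 2 * |u k| := by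
        rw [div_le_iff₀ (by linarith), pow_succ, sq_abs]
        have : 0 ≤ u k ^ 2 * |u k| := by positivity
        nlinarith
      rw [Real.norm_eq_abs, abs_mul, Nat.abs_cast]
      have := mul_le_mul_of_nonneg_left (h3.trans h4) (Nat.cast_nonneg (ν k))
      linarith
    have h5 := (continuous_exp.tendsto _).comp (h1.add (hnu2.const_mul (-(1 / 2))))
    rw [zero_add] at h5
    refine h5.congr' ?_
    filter_upwards [hsmall] with k hk
    rw [phi_eq (by linarith [(abs_le.1 hk).1]), ← exp_nat_mul, Function.comp_apply]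
    congr 1; ring
  -- the Poisson factor
  have hB1 : Tendsto (fun k => 1 / Stirling.stirlingSeq (m k)) atTop (𝓝 (1 / √π)) :=
    tendsto_const_nhds.div (Stirling.tendsto_stirlingSeq_sqrt_pi.comp hm') (by positivity)
  have hB2 : Tendsto (fun k => √(exp (r k) / (2 * m k))) atTop (𝓝 (√(1 / 2))) := by
    have h1 : Tendsto (fun k => 1 / (2 * (1 + u k))) atTop (𝓝 (1 / 2)) := by
      have := (tendsto_const_nhds (x := (1 : ℝ))).div ((hu0.const_add 1).const_mul 2) (by norm_num)
      rw [add_zero, mul_one] at this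
      exact this
    refine h1.sqrt.congr fun k => ?_
    rw [hmu k, mul_left_comm, ← div_div, ← div_div, div_self (exp_pos _).ne', div_div]
  have hB3 : Tendsto (fun k => exp (m k - exp (r k) - m k * log (m k / exp (r k)))) atTop
      (𝓝 1) := by
    have h1 : Tendsto (fun k => exp (r k) * u k ^ 2) atTop (𝓝 0) := by
      refine (hnu2.div_atTop hr).congr' ?_
      filter_upwards [hr.eventually_gt_atTop 0] with k hk
      rw [← hν k]; field_simp
    have h2 : Tendsto (fun k => (m k : ℝ) - exp (r k) - m k * log (m k / exp (r k))) atTop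
        (𝓝 0) := by
      refine squeeze_zero_norm' ?_ h1
      filter_upwards [hsmall] with k hk
      have hpos : 0 < 1 + u k := by linarith [(abs_le.1 hk).1]
      have e1 : (m k : ℝ) / exp (r k) = 1 + u k := by rw [hmu k]; field_simp
      have a1 := log_le_sub_one_of_pos hpos
      have a2 := one_sub_inv_le_log_of_pos hpos
      have a3 : u k ≤ (1 + u k) * log (1 + u k) := by
        have := mul_le_mul_of_nonneg_left a2 hpos.le
        have e : (1 + u k) * (1 - (1 + u k)⁻¹) = u k := by field_simp; ring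
        linarith
      have a4 : (1 + u k) * log (1 + u k) ≤ u k + u k ^ 2 := by nlinarith
      rw [e1, hmu k, Real.norm_eq_abs, abs_le]
      have := exp_pos (r k)
      constructor <;> nlinarith
    simpa [Function.comp_def] using (continuous_exp.tendsto _).comp h2
  have h := ((hB1.mul hB2).mul hB3).mul hA
  rw [mul_one] at h
  refine h.congr' ?_
  filter_upwards [hm'.eventually_ne_atTop 0] with k hk
  rw [qq, ← mul_assoc, poi_stirling (exp_pos _) hk]

include hν hr in
theorem laplace : Tendsto (fun k => √(r k) * ∑' m, qq (r k) (ν k) m) atTop (𝓝 1) := by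
  let h : ℕ → ℝ := fun k => √(r k / exp (r k))
  let g : ℕ → ℝ → ℝ := fun k =>
    (Ici (0 : ℝ)).indicator (fun y => √(exp (r k)) * qq (r k) (ν k) ⌊y⌋₊)
  let F : ℕ → ℝ → ℝ := fun k t => g k (exp (r k) + t / h k)
  have hn := nu_tendsto hν hr
  have hh0 : Tendsto h atTop (𝓝 0) := by
    simpa using (tendsto_pow_div_exp hr 1).sqrt
  have hr1 : ∀ᶠ k in atTop, 1 ≤ r k := hr.eventually_ge_atTop 1
  have hhe : ∀ k, 0 ≤ r k → √(ν k) = exp (r k) * h k := by
    intro k hk
    rw [← hν k]
    simp only [h]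
    rw [← sqrt_sq (exp_pos (r k)).le, ← sqrt_mul (sq_nonneg _), sqrt_sq (exp_pos (r k)).le]
    congr 1; field_simp
  have hint : ∀ᶠ k in atTop, ∫ t, F k t = √(r k) * ∑' m, qq (r k) (ν k) m := by
    filter_upwards [hr1] with k hk
    simp only [F]
    rw [Measure.integral_comp_div (fun s => g k (exp (r k) + s)) (h k),
      integral_add_left_eq_self (g k) (exp (r k))]
    simp only [g]
    rw [step_integral (fun m => √(exp (r k)) * qq (r k) (ν k) m)
      (fun m => mul_nonneg (sqrt_nonneg _) (qq_nonneg _ _ _)) ((summable_qq _ _).mul_left _),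
      tsum_mul_left, abs_of_nonneg (sqrt_nonneg _), smul_eq_mul, ← mul_assoc,
      ← sqrt_mul (by positivity), div_mul_cancel₀ _ (exp_pos _).ne']
  have hw : ∀ k t, 1 ≤ r k → 0 ≤ exp (r k) + t / h k →
      |((⌊exp (r k) + t / h k⌋₊ : ℝ) - exp (r k)) / exp (r k) * √(ν k) - t| ≤ h k := by
    intro k t hk hy
    have hpos : 0 < h k := sqrt_pos.2 (by positivity)
    have a1 := Nat.floor_le hy
    have a2 := Nat.lt_floor_add_one (exp (r k) + t / h k)
    rw [hhe k (by linarith)]
    generalize (⌊exp (r k) + t / h k⌋₊ : ℝ) = M at *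
    have e : (M - exp (r k)) / exp (r k) * (exp (r k) * h k) - t =
        (M - (exp (r k) + t / h k)) * h k := by field_simp; ring
    rw [e, abs_le]
    constructor <;> nlinarith
  have hval : ∫ t : ℝ, 1 / √π * √(1 / 2) * exp (-(1 / 2) * t ^ 2) = 1 := by
    rw [integral_const_mul, integral_gaussian, mul_assoc, ← sqrt_mul (by norm_num)]
    have : (1 / 2 : ℝ) * (π / (1 / 2)) = π := by ring
    rw [this]
    field_simp
  refine Tendsto.congr' hint ?_
  rw [← hval]
  refine tendsto_integral_filter_of_dominated_convergence (fun t => exp 1 * 8 * (1 + t ^ 2)⁻¹)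
    (Eventually.of_forall fun k => ?_) ?_ (integrable_inv_one_add_sq.const_mul _)
    (ae_of_all _ fun t => ?_)
  · refine Measurable.aestronglyMeasurable (Measurable.comp (g := g k) ?_ (by fun_prop))
    exact ((measurable_from_top (f := fun m : ℕ => √(exp (r k)) * qq (r k) (ν k) m)).comp
      Nat.measurable_floor).indicator measurableSet_Ici
  · filter_upwards [hr1, hh0.eventually (ge_mem_nhds one_pos), hn.eventually_ge_atTop 1]
      with k hk hk1 hk2
    refine ae_of_all _ fun t => ?_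
    by_cases hy : 0 ≤ exp (r k) + t / h k
    · have h1 := hw k t hk hy
      simp only [F, g]
      rw [indicator_of_mem (mem_Ici.2 hy),
        Real.norm_of_nonneg (mul_nonneg (sqrt_nonneg _) (qq_nonneg _ _ _)), qq, ← mul_assoc]
      set M := ⌊exp (r k) + t / h k⌋₊
      have hu := uu_ge (r k) M
      set u := ((M : ℝ) - exp (r k)) / exp (r k)
      refine (mul_le_of_le_one_left (pow_nonneg (phi_nonneg hu) _)
        (poi_le (one_le_exp (by linarith)) M)).trans ?_
      refine (pow_le_pow_left₀ (phi_nonneg hu) (phi_le hu) _).trans ?_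
      rw [← exp_nat_mul]
      set w := u * √(ν k) with hwdef
      have a1 : (ν k : ℝ) * u ^ 2 = w ^ 2 := by
        rw [hwdef, mul_pow, sq_sqrt (Nat.cast_nonneg _), mul_comm]
      have a2 : |u| ≤ |w| := by
        rw [hwdef, abs_mul, abs_of_nonneg (sqrt_nonneg _)]
        exact le_mul_of_one_le_right (abs_nonneg _) (one_le_sqrt.2 hk2)
      have a3 : (|w| - 1) / 2 ≤ w ^ 2 / (2 * (1 + |u|)) := by
        refine le_trans ?_ (div_le_div_of_nonneg_left (sq_nonneg w) (by positivity)
          (by linarith : 2 * (1 + |u|) ≤ 2 * (1 + |w|)))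
        rw [div_le_div_iff₀ (by norm_num) (by positivity), ← sq_abs w]
        nlinarith
      have a4 : |t| ≤ |w| + 1 := by
        have := abs_sub w (w - t)
        rw [sub_sub_cancel] at this
        linarith
      have a5 : (ν k : ℝ) * -(u ^ 2 / (2 * (1 + |u|))) ≤ 1 - |t| / 2 := by
        have : (ν k : ℝ) * -(u ^ 2 / (2 * (1 + |u|))) = -(w ^ 2 / (2 * (1 + |u|))) := by
          rw [← a1]; ring
        linarith
      refine (exp_le_exp.2 a5).trans ?_
      rw [exp_sub, mul_assoc, div_eq_mul_inv]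
      refine mul_le_mul_of_nonneg_left ?_ (exp_pos _).le
      have a6 := quadratic_le_exp_of_nonneg (x := |t| / 2) (by positivity)
      rw [div_pow, sq_abs] at a6
      rw [← div_eq_mul_inv, inv_eq_one_div, div_le_div_iff₀ (exp_pos _) (by positivity)]
      nlinarith [abs_nonneg t]
    · simp only [F, g]
      rw [indicator_of_notMem (by simpa using hy), norm_zero]
      positivity
  · have hy : ∀ᶠ k in atTop, 0 ≤ exp (r k) + t / h k := by
      filter_upwards [hr1, (tendsto_sqrt_atTop.comp hn).eventually_ge_atTop (-t)] with k hk hk2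
      have hpos : 0 < h k := sqrt_pos.2 (by positivity)
      rw [Function.comp_apply, hhe k (by linarith)] at hk2
      have : exp (r k) + t / h k = (exp (r k) * h k + t) / h k := by field_simp
      rw [this]
      exact div_nonneg (by linarith) hpos.le
    refine (local_limit hν hr (fun k => ⌊exp (r k) + t / h k⌋₊) t ?_).congr' ?_
    · rw [tendsto_iff_norm_sub_tendsto_zero]
      refine squeeze_zero' (Eventually.of_forall fun _ => norm_nonneg _) ?_ hh0
      filter_upwards [hr1, hy] with k hk hk2 using hw k t hk hk2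
    · filter_upwards [hy] with k hk
      simp only [F, g]
      rw [indicator_of_mem (mem_Ici.2 hk)]

end lim

end Pool.Agent.Lib.MP_cfcaf3_co
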