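import Mathlib
import Pool.Agent.Lib.MP_cfcaf3_co.Burn

namespace Pool.Agent.Lib.MP_cfcaf3_co

open Finset Equiv Filter Topology

/-- proportion of derangements -/
noncomputable def dd (k : ℕ) : ℝ := (numDerangements k : ℝ) / k.factorial

theorem dd_nonneg (k : ℕ) : 0 ≤ dd k := by unfold dd; positivity

theorem dd_le_one (k : ℕ) : dd k ≤ 1 := by
  rw [dd, div_le_one (by positivity), Nat.cast_le, ← card_derangements_fin_eq_numDerangements]
  refine (Fintype.card_subtype_le _).trans ?_
  simp [Fintype.card_perm]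

theorem dd_tendsto (a : ℕ) : Tendsto (fun N => dd (N - a)) atTop (𝓝 (Real.exp (-1))) :=
  numDerangements_tendsto_inv_e.comp (tendsto_sub_atTop_nat a)

theorem choose_mul_der {N a : ℕ} (ha : a ≤ N) :
    (N.choose a : ℝ) * numDerangements (N - a) = N.factorial * (dd (N - a) / a.factorial) := by
  rw [← Nat.choose_mul_factorial_mul_factorial ha, dd]
  have h3 : (a.factorial : ℝ) ≠ 0 := by positivity
  have h4 : ((N - a).factorial : ℝ) ≠ 0 := by positivity
  push_cast
  field_simp

/-- the terms of the main sum -/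
noncomputable def term (n : ℕ) (p : ℕ × ℕ) : ℝ :=
  ((p.1 * p.2).choose n : ℝ) / (p.1.factorial * p.2.factorial)

theorem term_nonneg (n : ℕ) (p : ℕ × ℕ) : 0 ≤ term n p := by unfold term; positivity

theorem summable_pow_div (n : ℕ) : Summable fun a : ℕ => (a : ℝ) ^ n / a.factorial := by
  refine ((Real.summable_pow_div_factorial (Real.exp 1)).mul_left (n.factorial : ℝ)).of_nonneg_of_le
    (fun a => by positivity) fun a => ?_
  have h := Real.pow_div_factorial_le_exp (a : ℝ) (Nat.cast_nonneg a) n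
  rw [div_le_iff₀ (by positivity)] at h
  rw [← Real.exp_nat_mul, mul_one, ← mul_div_assoc]
  exact div_le_div_of_nonneg_right (by linarith) (by positivity)

theorem summable_term (n : ℕ) : Summable (term n) := by
  refine (summable_mul_of_summable_norm (summable_pow_div n).norm
    (summable_pow_div n).norm).of_nonneg_of_le (term_nonneg n) fun p => ?_
  rw [term, div_mul_div_comm, ← mul_pow]
  refine div_le_div_of_nonneg_right ?_ (by positivity)
  exact_mod_cast Nat.choose_le_pow _ _

/-- the main sum -/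
noncomputable def UU (n : ℕ) : ℝ := ∑' p, term n p

/-- the finite version of the main sum -/
noncomputable def mainN (N n : ℕ) : ℝ :=
  ∑ a ∈ range (N + 1), ∑ b ∈ range (N + 1), dd (N - a) * dd (N - b) * term n (a, b)

theorem mainN_tendsto (n : ℕ) :
    Tendsto (fun N => mainN N n) atTop (𝓝 (Real.exp (-2) * UU n)) := by
  have e : ∀ N, mainN N n = ∑' p : ℕ × ℕ,
      if p ∈ range (N + 1) ×ˢ range (N + 1) then dd (N - p.1) * dd (N - p.2) * term n p else 0 := by
    intro N
    rw [tsum_eq_sum (s := range (N + 1) ×ˢ range (N + 1)) (fun p hp => if_neg hp), mainN,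
      ← sum_product']
    exact sum_congr rfl fun p hp => (if_pos hp).symm
  simp only [e]
  rw [UU, ← tsum_mul_left]
  refine tendsto_tsum_of_dominated_convergence (summable_term n) (fun p => ?_)
    (Eventually.of_forall fun N p => ?_)
  · have h1 := ((dd_tendsto p.1).mul (dd_tendsto p.2)).mul_const (term n p)
    rw [← Real.exp_add, show (-1 : ℝ) + -1 = -2 by norm_num] at h1
    refine h1.congr' ?_
    filter_upwards [eventually_ge_atTop (max p.1 p.2)] with N hN
    rw [if_pos]
    simp only [mem_product, mem_range]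
    omega
  · split_ifs
    · rw [Real.norm_of_nonneg (mul_nonneg (mul_nonneg (dd_nonneg _) (dd_nonneg _)) (term_nonneg _ _))]
      exact mul_le_of_le_one_left (term_nonneg _ _)
        (mul_le_one₀ (dd_le_one _) (dd_nonneg _) (dd_le_one _))
    · simpa using term_nonneg n p

variable {α : Type} [Fintype α] [DecidableEq α]

theorem main_eq (n : ℕ) :
    ∑ g : Perm α, ∑ h : Perm α, (((fx g).card * (fx h).card).choose n : ℝ) =
      ((Fintype.card α).factorial : ℝ) ^ 2 * mainN (Fintype.card α) n := by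
  set N := Fintype.card α
  rw [count1 (X := α) (fun a => ∑ h : Perm α, ((a * (fx h).card).choose n : ℝ)), mainN, mul_sum]
  refine sum_congr rfl fun a ha => ?_
  rw [count1 (X := α) (fun b => ((a * b).choose n : ℝ)), ← mul_assoc,
    choose_mul_der (Nat.lt_succ_iff.1 (mem_range.1 ha)), mul_sum, mul_sum]
  refine sum_congr rfl fun b hb => ?_
  rw [← mul_assoc (Nat.choose _ b : ℝ), choose_mul_der (Nat.lt_succ_iff.1 (mem_range.1 hb)), term]
  simp only [N]
  ring

theorem geom_le {η : ℝ} (h0 : 0 ≤ η) (h1 : η ≤ 1 / 2) (n : ℕ) :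
    ∑ k ∈ range (n + 1), η ^ k ≤ 1 + 2 * η := by
  have : ∀ n : ℕ, ∑ k ∈ range (n + 1), η ^ k ≤ 1 + 2 * η - 2 * η ^ (n + 1) := by
    intro n
    induction n with
    | zero => simp
    | succ n ih =>
      rw [sum_range_succ, pow_succ η (n + 1)]
      have : 0 ≤ η ^ (n + 1) := by positivity
      nlinarith
  have h2 : 0 ≤ η ^ (n + 1) := by positivity
  linarith [this n]

theorem sum_Phi {n : ℕ} {m ρ : ℝ} (P : Par n m ρ) (a b : ℕ) :
    ∑ p ∈ (range (n + 1) ×ˢ range (n + 1)).erase (0, 0), Phi n m ρ a b p.1 p.2 ≤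
      6 * (ρ * Real.exp 1) * ((a * b).choose n : ℝ) +
        ((n : ℝ) + 1) ^ 2 * (m ^ n * Real.exp (2 * a + 2 * b + n)) := by
  have hm0 : 0 < m := by linarith [P.hm]
  have hη0 : 0 ≤ ρ * Real.exp 1 := by have := P.hρ0; positivity
  unfold Phi
  split_ifs
  · refine le_add_of_le_of_nonneg ?_ (by positivity)
    rw [← mul_sum, mul_comm]
    refine mul_le_mul_of_nonneg_right ?_ (by positivity)
    set η := ρ * Real.exp 1
    have h1 := add_sum_erase (range (n + 1) ×ˢ range (n + 1)) (fun p => η ^ (p.1 + p.2))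
      (a := (0, 0)) (by simp)
    have h2 : ∑ p ∈ range (n + 1) ×ˢ range (n + 1), η ^ (p.1 + p.2) =
        (∑ k ∈ range (n + 1), η ^ k) * ∑ k ∈ range (n + 1), η ^ k := by
      rw [sum_mul_sum, sum_product]
      simp only [pow_add]
    have h3 := geom_le hη0 P.hρ1 n
    have h4 : 0 ≤ ∑ k ∈ range (n + 1), η ^ k := sum_nonneg fun _ _ => by positivity
    have h5 := mul_le_mul h3 h3 h4 (by positivity)
    simp only [add_zero, pow_zero] at h1
    nlinarith [P.hρ1]
  · refine le_add_of_nonneg_of_le (by positivity) ?_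
    rw [sum_const, nsmul_eq_mul]
    refine mul_le_mul_of_nonneg_right ?_ (by positivity)
    have : ((range (n + 1) ×ˢ range (n + 1)).erase (0, 0)).card ≤ (n + 1) ^ 2 := by
      refine card_erase_le.trans ?_
      simp [sq]
    exact_mod_cast this

theorem err1 {n : ℕ} {m ρ : ℝ} (P : Par n m ρ) :
    ∑ g : Perm α, ∑ h : Perm α, ∑ p ∈ (range (n + 1) ×ˢ range (n + 1)).erase (0, 0),
      ((invS g p.1).card : ℝ) * ((invS h p.2).card *
        Phi n m ρ (fx g).card (fx h).card p.1 p.2) ≤
      ((Fintype.card α).factorial : ℝ) ^ 2 * (6 * (ρ * Real.exp 1) * UU n +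
        ((n : ℝ) + 1) ^ 2 * (m ^ n * Real.exp n) * Real.exp (Real.exp 2) ^ 2) := by
  set N := Fintype.card α
  set I := (range (n + 1) ×ˢ range (n + 1)).erase (0, 0)
  have hm0 : 0 < m := by linarith [P.hm]
  have hΦ := fun a b k l => Phi_nonneg (n := n) hm0.le P.hρ0.le a b k l
  have h1 : ∀ p : ℕ × ℕ, ∑ g : Perm α, ∑ h : Perm α, ((invS g p.1).card : ℝ) * ((invS h p.2).card *
        Phi n m ρ (fx g).card (fx h).card p.1 p.2) ≤
      ∑ a ∈ range (N + 1), ∑ b ∈ range (N + 1),
        (N.factorial : ℝ) ^ 2 * (1 / (a.factorial * b.factorial) * Phi n m ρ a b p.1 p.2) := by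
    intro p
    calc _ ≤ ∑ g : Perm α, ((invS g p.1).card : ℝ) * ∑ b ∈ range (N + 1),
          (N.factorial : ℝ) / b.factorial * Phi n m ρ (fx g).card b p.1 p.2 := by
          refine sum_le_sum fun g _ => ?_
          rw [← mul_sum]
          exact mul_le_mul_of_nonneg_left (count2 p.2 (fun b => Phi n m ρ (fx g).card b p.1 p.2)
            (fun b => hΦ _ _ _ _)) (by positivity)
      _ ≤ ∑ a ∈ range (N + 1), (N.factorial : ℝ) / a.factorial * ∑ b ∈ range (N + 1),
          (N.factorial : ℝ) / b.factorial * Phi n m ρ a b p.1 p.2 :=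
          count2 p.1 (fun a => ∑ b ∈ range (N + 1),
            (N.factorial : ℝ) / b.factorial * Phi n m ρ a b p.1 p.2)
            (fun a => sum_nonneg fun b _ => mul_nonneg (by positivity) (hΦ _ _ _ _))
      _ = _ := by
          refine sum_congr rfl fun a _ => ?_
          rw [mul_sum]
          refine sum_congr rfl fun b _ => ?_
          ring
  have h2 : ∑ a ∈ range (N + 1), ∑ b ∈ range (N + 1), term n (a, b) ≤ UU n := by
    rw [← sum_product' (f := fun a b => term n (a, b))]
    exact (summable_term n).sum_le_tsum _ (fun p _ => term_nonneg n p)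
  have h3 : ∑ a ∈ range (N + 1), Real.exp (2 * a) / a.factorial ≤ Real.exp (Real.exp 2) := by
    refine le_trans (le_of_eq (sum_congr rfl fun a _ => ?_))
      (Real.sum_le_exp_of_nonneg (Real.exp_pos 2).le (N + 1))
    rw [← Real.exp_nat_mul, mul_comm]
  have h4 : 0 ≤ ∑ a ∈ range (N + 1), Real.exp (2 * a) / a.factorial :=
    sum_nonneg fun _ _ => by positivity
  calc _ = ∑ p ∈ I, ∑ g : Perm α, ∑ h : Perm α, ((invS g p.1).card : ℝ) * ((invS h p.2).card *
        Phi n m ρ (fx g).card (fx h).card p.1 p.2) := by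
        rw [sum_comm (s := I)]
        exact sum_congr rfl fun g _ => sum_comm
    _ ≤ ∑ p ∈ I, ∑ a ∈ range (N + 1), ∑ b ∈ range (N + 1),
        (N.factorial : ℝ) ^ 2 * (1 / (a.factorial * b.factorial) * Phi n m ρ a b p.1 p.2) :=
        sum_le_sum fun p _ => h1 p
    _ = (N.factorial : ℝ) ^ 2 * ∑ a ∈ range (N + 1), ∑ b ∈ range (N + 1),
        1 / (a.factorial * b.factorial) * ∑ p ∈ I, Phi n m ρ a b p.1 p.2 := by
        rw [sum_comm (s := I), mul_sum]
        refine sum_congr rfl fun a _ => ?_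
        rw [sum_comm (s := I), mul_sum]
        refine sum_congr rfl fun b _ => ?_
        rw [mul_sum, mul_sum]
    _ ≤ (N.factorial : ℝ) ^ 2 * ∑ a ∈ range (N + 1), ∑ b ∈ range (N + 1),
        (6 * (ρ * Real.exp 1) * term n (a, b) + ((n : ℝ) + 1) ^ 2 * (m ^ n * Real.exp n) *
          (Real.exp (2 * a) / a.factorial * (Real.exp (2 * b) / b.factorial))) := by
        refine mul_le_mul_of_nonneg_left (sum_le_sum fun a _ => sum_le_sum fun b _ => ?_)
          (by positivity)
        refine (mul_le_mul_of_nonneg_left (sum_Phi P a b) (by positivity)).trans (le_of_eq ?_)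
        rw [term, Real.exp_add, Real.exp_add]
        ring
    _ ≤ _ := by
        refine mul_le_mul_of_nonneg_left ?_ (by positivity)
        simp only [sum_add_distrib, ← mul_sum, ← sum_mul]
        have := P.hρ0
        refine add_le_add (mul_le_mul_of_nonneg_left h2 (by positivity))
          (mul_le_mul_of_nonneg_left ?_ (by positivity))
        rw [sq]
        exact mul_le_mul h3 h3 h4 (by positivity)

theorem err2 {n : ℕ} {m ρ : ℝ} (P : Par n m ρ) :
    ∑ g : Perm α, ∑ h : Perm α,
      (fixN (Equiv.prodCongr g h * Equiv.prodComm α α : Perm (α × α)) n : ℝ) ≤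
      ((Fintype.card α).factorial : ℝ) ^ 2 * (((n : ℝ) + 1) * (m ^ n * Real.exp (2 * n))) := by
  have hm0 : 0 < m := by linarith [P.hm]
  have h1 : ∀ g : Perm α, ∑ h : Perm α,
      (fixN (Equiv.prodCongr g h * Equiv.prodComm α α : Perm (α × α)) n : ℝ) ≤
      ((Fintype.card α).factorial : ℝ) * (((n : ℝ) + 1) * (m ^ n * Real.exp (2 * n))) := by
    intro g
    refine (sum_le_sum fun h _ => fix_swap P g h).trans ?_
    rw [sum_comm]
    have h2 : ∀ k, ∑ h : Perm α,
        ((((univ : Finset α).powersetCard k).filter (Inv (g * h))).card : ℝ) *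
          (m ^ n * Real.exp (2 * n)) ≤
        ((Fintype.card α).factorial : ℝ) * (m ^ n * Real.exp (2 * n)) := by
      intro k
      rw [← sum_mul]
      refine mul_le_mul_of_nonneg_right ?_ (by positivity)
      have := Equiv.sum_comp (Equiv.mulLeft g)
        (fun π : Perm α => ((((univ : Finset α).powersetCard k).filter (Inv π)).card : ℝ))
      simp only [Equiv.coe_mulLeft] at this
      rw [this]
      exact_mod_cast count3 (X := α) k
    refine (sum_le_sum fun k _ => h2 k).trans (le_of_eq ?_)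
    rw [sum_const, card_range, nsmul_eq_mul]
    push_cast
    ring
  refine (sum_le_sum fun g _ => h1 g).trans (le_of_eq ?_)
  rw [sum_const, card_univ, Fintype.card_perm, nsmul_eq_mul]
  ring

/-- the negligible error term -/
noncomputable def Err (n : ℕ) (m : ℝ) : ℝ :=
  ((n : ℝ) + 1) ^ 2 * (m ^ n * Real.exp n) * Real.exp (Real.exp 2) ^ 2 +
    ((n : ℝ) + 1) * (m ^ n * Real.exp (2 * n))

theorem finite_bounds [Nontrivial α] {n : ℕ} {m ρ : ℝ} (P : Par n m ρ) :
    mainN (Fintype.card α) n ≤ 2 * (orbitCount (wreath α) (α × α) n : ℝ) ∧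
      2 * (orbitCount (wreath α) (α × α) n : ℝ) ≤
        mainN (Fintype.card α) n + (6 * (ρ * Real.exp 1) * UU n + Err n m) := by
  have hb := congrArg (Nat.cast : ℕ → ℝ) (burnside (α := α) n)
  push_cast at hb
  have hpos : (0 : ℝ) < ((Fintype.card α).factorial : ℝ) ^ 2 := by positivity
  have hme := main_eq (α := α) n
  constructor
  · refine le_of_mul_le_mul_left ?_ hpos
    have h1 : ∑ g : Perm α, ∑ h : Perm α, (((fx g).card * (fx h).card).choose n : ℝ) ≤
        ∑ g : Perm α, ∑ h : Perm α, (fixN (Equiv.prodCongr g h : Perm (α × α)) n : ℝ) :=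
      sum_le_sum fun g _ => sum_le_sum fun h _ => by exact_mod_cast fix_lower g h n
    have h2 : (0 : ℝ) ≤ ∑ g : Perm α, ∑ h : Perm α,
        (fixN (Equiv.prodCongr g h * Equiv.prodComm α α : Perm (α × α)) n : ℝ) :=
      sum_nonneg fun g _ => sum_nonneg fun h _ => by positivity
    nlinarith
  · refine le_of_mul_le_mul_left ?_ hpos
    have h1 := sum_le_sum (s := (univ : Finset (Perm α))) fun g _ =>
      sum_le_sum (s := (univ : Finset (Perm α))) fun h _ => fix_upper P g h
    simp only [sum_add_distrib] at h1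
    have h2 := err1 (α := α) P
    have h3 := err2 (α := α) P
    rw [Err]
    nlinarith

theorem orbit_bounds (Ω : Type) [Infinite Ω] [DecidableEq Ω] {n : ℕ} {m ρ : ℝ} (P : Par n m ρ) :
    Real.exp (-2) * UU n ≤ 2 * (orbitCount (wreath Ω) (Ω × Ω) n : ℝ) ∧
      2 * (orbitCount (wreath Ω) (Ω × Ω) n : ℝ) ≤
        Real.exp (-2) * UU n + (6 * (ρ * Real.exp 1) * UU n + Err n m) := by
  have h : ∀ᶠ N in atTop, mainN N n ≤ 2 * (orbitCount (wreath Ω) (Ω × Ω) n : ℝ) ∧
      2 * (orbitCount (wreath Ω) (Ω × Ω) n : ℝ) ≤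
        mainN N n + (6 * (ρ * Real.exp 1) * UU n + Err n m) := by
    filter_upwards [eventually_ge_atTop (max n 2)] with N hN
    have : Nontrivial (Fin N) := Fin.nontrivial_iff_two_le.2 (by omega)
    rw [transfer (Fin.valEmbedding.trans (Infinite.natEmbedding Ω) : Fin N ↪ Ω) n
      (by simp only [Fintype.card_fin]; omega)]
    simpa using finite_bounds (α := Fin N) P
  exact ⟨le_of_tendsto (mainN_tendsto n) (h.mono fun N hN => hN.1),
    ge_of_tendsto ((mainN_tendsto n).add_const _) (h.mono fun N hN => hN.2)⟩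

end Pool.Agent.Lib.MP_cfcaf3_co
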