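import Mathlib
import Pool.Agent.Lib.MP_cfcaf3_co.Laplace

namespace Pool.Agent.Lib.MP_cfcaf3_co

open Filter Topology Set Real

theorem desc_upper (M n : ℕ) {H : ℝ} (hM : 0 < M) (hH : (M : ℝ) ≤ H) :
    (n.factorial : ℝ) * M.choose n ≤ (M : ℝ) ^ n * exp (-(n * (n - 1) / (2 * H))) := by
  have hM0 : (0 : ℝ) < M := by exact_mod_cast hM
  have hH0 : 0 < H := by linarith
  rw [← Nat.cast_mul, ← Nat.descFactorial_eq_factorial_mul_choose]
  induction n with
  | zero => simp
  | succ n ih =>
    rw [Nat.descFactorial_succ, Nat.cast_mul]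
    have h1 : ((M - n : ℕ) : ℝ) ≤ M * exp (-(n / H)) := by
      rcases le_or_gt n M with h | h
      · rw [Nat.cast_sub h]
        have a1 := add_one_le_exp (-(n / H))
        have a2 : (M : ℝ) * (n / H) ≤ n := by
          rw [← mul_div_assoc, div_le_iff₀ hH0]
          nlinarith [Nat.cast_nonneg (α := ℝ) n]
        nlinarith
      · rw [Nat.sub_eq_zero_of_le h.le, Nat.cast_zero]; positivity
    refine (mul_le_mul h1 ih (by positivity) (by positivity)).trans (le_of_eq ?_)
    rw [pow_succ, mul_mul_mul_comm, ← exp_add, mul_comm (M : ℝ)]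
    congr 2
    push_cast
    field_simp
    ring

theorem desc_lower (M n : ℕ) {D : ℝ} (hD : 0 < D) (h : D + n ≤ M) :
    (M : ℝ) ^ n * exp (-(n ^ 2 / (2 * D))) ≤ (n.factorial : ℝ) * M.choose n := by
  rw [← Nat.cast_mul, ← Nat.descFactorial_eq_factorial_mul_choose]
  have key : ∀ j, j ≤ n → (M : ℝ) ^ j * exp (-(j ^ 2 / (2 * D))) ≤ M.descFactorial j := by
    intro j
    induction j with
    | zero => simp
    | succ j ih =>
      intro hj
      have hjr : (j : ℝ) + 1 ≤ n := by exact_mod_cast hj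
      have hj0 : (0 : ℝ) ≤ j := Nat.cast_nonneg j
      have hM0 : (0 : ℝ) < M := by linarith
      have hjM : j ≤ M := by
        have : (j : ℝ) ≤ M := by linarith
        exact_mod_cast this
      have hpos : (0 : ℝ) < M - j := by linarith
      rw [Nat.descFactorial_succ, Nat.cast_mul, Nat.cast_sub hjM]
      have h1 : (M : ℝ) * exp (-(j / D)) ≤ M - j := by
        have a1 := one_sub_inv_le_log_of_pos (x := (M - j) / M) (by positivity)
        have a2 : 1 - (((M : ℝ) - j) / M)⁻¹ = -(j / (M - j)) := by field_simp; ring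
        have a3 : (j : ℝ) / (M - j) ≤ j / D := div_le_div_of_nonneg_left hj0 hD (by linarith)
        have a4 : exp (-(j / D)) ≤ (M - j) / M := by
          rw [← exp_log (x := (M - j) / M) (by positivity), exp_le_exp]; linarith
        rwa [le_div_iff₀' hM0] at a4
      refine le_trans ?_ (mul_le_mul h1 (ih (by omega)) (by positivity) hpos.le)
      rw [pow_succ, mul_mul_mul_comm, ← exp_add, mul_comm (M : ℝ)]
      refine mul_le_mul_of_nonneg_left (exp_le_exp.2 ?_) (by positivity)
      push_cast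
      have : -(((j : ℝ) + 1) ^ 2 / (2 * D)) = -(j / D) + -(j ^ 2 / (2 * D)) - 1 / (2 * D) := by
        field_simp; ring
      have h3 : 0 < 1 / (2 * D) := by positivity
      linarith
  exact key n le_rfl

theorem exists_W (c : ℕ) (hc : 0 < c) : ∃ r : ℕ → ℝ, (∀ n, r n * exp (r n) = (c * n : ℕ)) ∧
    Tendsto r atTop atTop := by
  have h : ∀ x : ℝ, 0 ≤ x → ∃ r, 0 ≤ r ∧ r * exp r = x := by
    intro x hx
    have h1 := intermediate_value_Icc hx (f := fun r => r * exp r) (by fun_prop)
    obtain ⟨r, hr, e⟩ := h1 (show x ∈ Icc _ _ from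
      ⟨by simpa using hx, le_mul_of_one_le_right hx (one_le_exp hx)⟩)
    exact ⟨r, hr.1, e⟩
  choose w hw0 hw using h
  refine ⟨fun n => w (c * n : ℕ) (Nat.cast_nonneg _), fun n => hw _ _, ?_⟩
  rw [tendsto_atTop]
  intro M
  filter_upwards [tendsto_natCast_atTop_atTop.eventually_gt_atTop (|M| * exp |M|)] with n hn
  by_contra hlt
  have h1 : w (c * n : ℕ) (Nat.cast_nonneg _) ≤ |M| := (not_le.1 hlt).le.trans (le_abs_self M)
  have h2 := mul_le_mul h1 (exp_le_exp.2 h1) (exp_pos _).le (abs_nonneg M)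
  rw [hw] at h2
  have h3 : (n : ℝ) ≤ (c * n : ℕ) := by exact_mod_cast Nat.le_mul_of_pos_left n hc
  linarith

section lim

variable {r : ℕ → ℝ} (hr : Tendsto r atTop atTop)

include hr in
theorem tendsto_pow_mul_exp (j : ℕ) {c : ℝ} (hc : 0 < c) :
    Tendsto (fun k => r k ^ j * exp (-(c * r k))) atTop (𝓝 0) := by
  have h := ((tendsto_pow_mul_exp_neg_atTop_nhds_zero j).comp (hr.const_mul_atTop hc)).const_mul
    ((1 / c) ^ j)
  rw [mul_zero] at h
  refine h.congr fun k => ?_
  simp only [Function.comp_apply]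
  rw [← mul_assoc, ← mul_pow]
  congr 2
  field_simp

include hr in
theorem tendsto_inv_pow {j : ℕ} (hj : j ≠ 0) : Tendsto (fun k => 1 / r k ^ j) atTop (𝓝 0) :=
  tendsto_const_nhds.div_atTop ((tendsto_pow_atTop hj).comp hr)

include hr in
/-- the tail factor beats every Gaussian factor -/
theorem tail_tendsto : Tendsto (fun k => r k * exp (r k ^ 2) *
    exp (-(r k * exp (r k) * (1 / r k ^ 3) ^ 2 / 4))) atTop (𝓝 0) := by
  have h1 : Tendsto (fun k => r k ^ 3 * (1 / r k ^ 2 + 1 / r k ^ 1 - 1 / 161280)) atTop atBot := by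
    refine ((tendsto_pow_atTop three_ne_zero).comp hr).atTop_mul_neg
      (C := 0 + 0 - 1 / 161280) (by norm_num) ?_
    exact ((tendsto_inv_pow hr two_ne_zero).add (tendsto_inv_pow hr one_ne_zero)).sub_const _
  refine squeeze_zero' ?_ ?_ (tendsto_exp_atBot.comp h1)
  · filter_upwards [hr.eventually_ge_atTop 0] with k hk
    positivity
  · filter_upwards [hr.eventually_gt_atTop 0] with k hk
    have a1 : r k ≤ exp (r k) := by linarith [add_one_le_exp (r k)]
    have a2 := pow_div_factorial_le_exp (r k) hk.le 8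
    have a3 : r k ^ 3 / 161280 ≤ r k * exp (r k) * (1 / r k ^ 3) ^ 2 / 4 := by
      have e : r k * exp (r k) * (1 / r k ^ 3) ^ 2 / 4 = exp (r k) / (4 * r k ^ 5) := by
        field_simp
      rw [e, le_div_iff₀ (by positivity)]
      norm_num [Nat.factorial] at a2
      linarith
    rw [Function.comp_apply, mul_assoc, ← exp_add]
    refine (mul_le_mul_of_nonneg_right a1 (exp_pos _).le).trans ?_
    rw [← exp_add, exp_le_exp]
    have e : r k ^ 3 * (1 / r k ^ 2 + 1 / r k ^ 1 - 1 / 161280) =
        r k + r k ^ 2 - r k ^ 3 / 161280 := by field_simp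
    linarith

end lim

end Pool.Agent.Lib.MP_cfcaf3_co
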