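import Mathlib
import Pool.Agent.Lib.MP_cfcaf3_co.Tools
import Pool.Agent.Lib.MP_cfcaf3_co.Sum

namespace Pool.Agent.Lib.MP_cfcaf3_co

open Filter Topology Set Real

theorem window {r δ : ℝ} {a : ℕ} (h : |((a : ℝ) - exp r) / exp r| < δ) :
    exp r * (1 - δ) ≤ a ∧ (a : ℝ) ≤ exp r * (1 + δ) := by
  rw [abs_lt, lt_div_iff₀ (exp_pos r), div_lt_iff₀ (exp_pos r)] at h
  constructor <;> linarith [h.1, h.2]

theorem UU_bounds {r δ : ℝ} {n : ℕ} (hn : r * exp r = n) (h0 : 0 < δ) (h1 : δ < 1)
    (hD : 0 < (exp r * (1 - δ)) ^ 2 - n) :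
    exp (-(n ^ 2 / (2 * ((exp r * (1 - δ)) ^ 2 - n)))) *
        ((∑' m, qq r n m) ^ 2 - exp (-(n * δ ^ 2 / 4))) ≤
      n.factorial * UU n / exp (n * r - n + exp r) ^ 2 ∧
    n.factorial * UU n / exp (n * r - n + exp r) ^ 2 ≤
      exp (-(n * (n - 1) / (2 * (exp r * (1 + δ)) ^ 2))) * (∑' m, qq r n m) ^ 2 +
        exp (-(n * δ ^ 2 / 4)) := by
  set A := exp (n * r - n + exp r) with hA
  set τ := exp (-(n * δ ^ 2 / 4)) with hτ
  set lo := exp (-(n ^ 2 / (2 * ((exp r * (1 - δ)) ^ 2 - n)))) with hlo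
  set hi := exp (-(n * (n - 1) / (2 * (exp r * (1 + δ)) ^ 2))) with hhi
  have hA0 : 0 < A := exp_pos _
  have hμ := exp_pos r
  have hq : HasSum (fun p : ℕ × ℕ => qq r n p.1 * qq r n p.2) ((∑' m, qq r n m) ^ 2) := by
    rw [sq]
    exact (summable_qq r n).hasSum.mul (summable_qq r n).hasSum
      ((summable_qq r n).mul_of_nonneg (summable_qq r n) (qq_nonneg r n) (qq_nonneg r n))
  have hp : HasSum (fun p : ℕ × ℕ => poi (exp r) p.1 * poi (exp r) p.2) 1 := by
    simpa using (hasSum_poi (exp r)).mul (hasSum_poi (exp r))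
      ((hasSum_poi (exp r)).summable.mul_of_nonneg (hasSum_poi (exp r)).summable
        (poi_nonneg hμ.le) (poi_nonneg hμ.le))
  have hX : HasSum (fun p : ℕ × ℕ => n.factorial * term n p / A ^ 2)
      (n.factorial * UU n / A ^ 2) :=
    ((summable_term n).hasSum.mul_left _).div_const _
  have hqq : ∀ p : ℕ × ℕ, qq r n p.1 * qq r n p.2 =
      ((p.1 * p.2 : ℕ) : ℝ) ^ n / (p.1.factorial * p.2.factorial * A ^ 2) := by
    intro p
    have e1 := pow_div_eq hn p.1
    have e2 := pow_div_eq hn p.2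
    rw [← hA] at e1 e2
    rw [← div_div, Nat.cast_mul, mul_pow, ← div_mul_div_comm, e1, e2]
    field_simp
  have hXe : ∀ p : ℕ × ℕ, n.factorial * term n p / A ^ 2 =
      (n.factorial * ((p.1 * p.2).choose n : ℝ)) / (p.1.factorial * p.2.factorial * A ^ 2) := by
    intro p; rw [term]; field_simp
  have hout : ∀ p : ℕ × ℕ, ¬ (|((p.1 : ℝ) - exp r) / exp r| < δ ∧
      |((p.2 : ℝ) - exp r) / exp r| < δ) →
      qq r n p.1 * qq r n p.2 ≤ τ * (poi (exp r) p.1 * poi (exp r) p.2) := by
    intro p hp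
    rcases not_and_or.1 hp with h | h
    · rw [← mul_assoc]
      exact mul_le_mul (qq_tail r n _ h0.le h1.le (not_lt.1 h)) (qq_le r n _) (qq_nonneg r n _)
        (mul_nonneg (exp_pos _).le (poi_nonneg hμ.le _))
    · rw [mul_left_comm]
      exact mul_le_mul (qq_le r n _) (qq_tail r n _ h0.le h1.le (not_lt.1 h)) (qq_nonneg r n _)
        (poi_nonneg hμ.le _)
  have hpp : ∀ p : ℕ × ℕ, 0 ≤ τ * (poi (exp r) p.1 * poi (exp r) p.2) := fun p =>
    mul_nonneg (exp_pos _).le (mul_nonneg (poi_nonneg hμ.le _) (poi_nonneg hμ.le _))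
  have hw0 : 0 < exp r * (1 - δ) := mul_pos hμ (by linarith)
  constructor
  · have := (hq.sub (hp.mul_left τ)).mul_left lo
    rw [mul_one] at this
    refine hasSum_le (fun p => ?_) this hX
    by_cases hin : |((p.1 : ℝ) - exp r) / exp r| < δ ∧ |((p.2 : ℝ) - exp r) / exp r| < δ
    · have a1 := (window hin.1).1
      have a2 := (window hin.2).1
      have a3 := desc_lower (p.1 * p.2) n hD (by
        push_cast
        have := mul_le_mul a1 a2 hw0.le (Nat.cast_nonneg _)
        nlinarith)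
      refine le_trans (mul_le_mul_of_nonneg_left (sub_le_self _ (hpp p)) (exp_pos _).le) ?_
      rw [hqq, hXe, ← mul_div_assoc, mul_comm]
      exact div_le_div_of_nonneg_right a3 (by positivity)
    · refine le_trans (mul_nonpos_of_nonneg_of_nonpos (exp_pos _).le
        (sub_nonpos.2 (hout p hin))) ?_
      rw [hXe]; positivity
  · have := (hq.mul_left hi).add (hp.mul_left τ)
    rw [mul_one] at this
    refine hasSum_le (fun p => ?_) hX this
    by_cases hin : |((p.1 : ℝ) - exp r) / exp r| < δ ∧ |((p.2 : ℝ) - exp r) / exp r| < δ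
    · have a1 := window hin.1
      have a2 := window hin.2
      have b1 : 0 < p.1 := by exact_mod_cast hw0.trans_le a1.1
      have b2 : 0 < p.2 := by exact_mod_cast hw0.trans_le a2.1
      have a3 := desc_upper (p.1 * p.2) n (H := (exp r * (1 + δ)) ^ 2) (Nat.mul_pos b1 b2) (by
        push_cast
        rw [sq]
        exact mul_le_mul a1.2 a2.2 (Nat.cast_nonneg _) (by positivity))
      refine le_add_of_le_of_nonneg ?_ (hpp p)
      rw [hqq, hXe, ← mul_div_assoc, mul_comm hi]
      exact div_le_div_of_nonneg_right a3 (by positivity)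
    · refine le_add_of_nonneg_of_le
        (mul_nonneg (exp_pos _).le (mul_nonneg (qq_nonneg _ _ _) (qq_nonneg _ _ _)))
        (le_trans ?_ (hout p hin))
      rw [hqq, hXe]
      refine div_le_div_of_nonneg_right ?_ (by positivity)
      rw [← Nat.cast_mul, ← Nat.descFactorial_eq_factorial_mul_choose]
      exact_mod_cast Nat.descFactorial_le_pow _ _

variable {r : ℕ → ℝ} (hν : ∀ n, r n * exp (r n) = n) (hr : Tendsto r atTop atTop)

include hν hr in
theorem UU_tendsto : Tendsto (fun n : ℕ => r n * exp (r n ^ 2 / 2) *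
    (n.factorial * UU n / exp (n * r n - n + exp (r n)) ^ 2)) atTop (𝓝 1) := by
  let δ : ℕ → ℝ := fun n => 1 / r n ^ 3
  have hδ : Tendsto δ atTop (𝓝 0) := tendsto_inv_pow hr three_ne_zero
  have hi1 : Tendsto (fun n => 1 / r n ^ 1) atTop (𝓝 0) := tendsto_inv_pow hr one_ne_zero
  have he1 := tendsto_pow_div_exp hr 1
  have he3 := tendsto_pow_div_exp hr 3
  have hpos := hr.eventually_gt_atTop 0
  have hQ : Tendsto (fun n => r n * (∑' m, qq (r n) n m) ^ 2) atTop (𝓝 1) := by
    have := (laplace (ν := fun n => n) hν hr).pow 2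
    rw [one_pow] at this
    refine this.congr' ?_
    filter_upwards [hpos] with n hn
    rw [mul_pow, sq_sqrt hn.le]
  have hden : Tendsto (fun n => (1 - δ n) ^ 2 - r n ^ 1 / exp (r n)) atTop (𝓝 1) := by
    simpa using ((hδ.const_sub 1).pow 2).sub he1
  have hτ : Tendsto (fun n : ℕ => r n * exp (r n ^ 2 / 2) * exp (-(n * δ n ^ 2 / 4))) atTop
      (𝓝 0) := by
    refine squeeze_zero' ?_ ?_ (tail_tendsto hr)
    · filter_upwards [hpos] with n hn
      positivity
    · filter_upwards [hpos] with n hn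
      rw [hν n]
      refine mul_le_mul_of_nonneg_right (mul_le_mul_of_nonneg_left (exp_le_exp.2 ?_) hn.le)
        (exp_pos _).le
      linarith [sq_nonneg (r n)]
  have hτ' : Tendsto (fun n : ℕ => r n * exp (-(n * δ n ^ 2 / 4))) atTop (𝓝 0) := by
    refine squeeze_zero' ?_ ?_ hτ
    · filter_upwards [hpos] with n hn
      positivity
    · filter_upwards [hpos] with n hn
      exact mul_le_mul_of_nonneg_right
        (le_mul_of_one_le_right hn.le (one_le_exp (by positivity))) (exp_pos _).le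
  have hlo : Tendsto (fun n : ℕ => exp (r n ^ 2 / 2) *
      exp (-(n ^ 2 / (2 * ((exp (r n) * (1 - δ n)) ^ 2 - n))))) atTop (𝓝 1) := by
    have h1 := ((hi1.neg.mul (hδ.const_sub 2)).sub he3).div (hden.const_mul 2) (by norm_num)
    have h2 := (continuous_exp.tendsto _).comp h1
    simp only [neg_zero, zero_mul, sub_zero, zero_div, exp_zero] at h2
    refine h2.congr' ?_
    filter_upwards [hpos, hden.eventually (lt_mem_nhds one_pos)] with n hn hd
    rw [← exp_add, Function.comp_apply, ← hν n]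
    congr 1
    have e : (exp (r n) * (1 - δ n)) ^ 2 - r n * exp (r n) =
        exp (r n) ^ 2 * ((1 - δ n) ^ 2 - r n ^ 1 / exp (r n)) := by field_simp
    have e2 : -(1 / r n ^ 1) * (2 - δ n) - r n ^ 3 / exp (r n) =
        r n ^ 2 * (((1 - δ n) ^ 2 - r n ^ 1 / exp (r n)) - 1) := by
      simp only [δ]; field_simp; ring
    simp only [Pi.div_apply]
    rw [e, e2]
    generalize (1 - δ n) ^ 2 - r n ^ 1 / exp (r n) = D at hd
    field_simp
    ring
  have hhi : Tendsto (fun n : ℕ => exp (r n ^ 2 / 2) *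
      exp (-(n * (n - 1) / (2 * (exp (r n) * (1 + δ n)) ^ 2)))) atTop (𝓝 1) := by
    have h1 := ((hi1.mul (hδ.const_add 2)).add he1).div (((hδ.const_add 1).pow 2).const_mul 2)
      (by norm_num)
    have h2 := (continuous_exp.tendsto _).comp h1
    simp only [zero_mul, add_zero, zero_div, exp_zero] at h2
    refine h2.congr' ?_
    filter_upwards [hpos] with n hn
    rw [← exp_add, Function.comp_apply, ← hν n]
    congr 1
    have e2 : 1 / r n ^ 1 * (2 + δ n) = r n ^ 2 * ((1 + δ n) ^ 2 - 1) := by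
      simp only [δ]; field_simp; ring
    have hd : 0 < 1 + δ n := by simp only [δ]; positivity
    simp only [Pi.div_apply]
    rw [e2]
    generalize 1 + δ n = D at hd
    field_simp
    ring
  have hL := hlo.mul (hQ.sub hτ')
  have hU := (hhi.mul hQ).add hτ
  simp only [sub_zero, mul_one, add_zero] at hL hU
  have hb : ∀ᶠ n : ℕ in atTop, 0 < r n ∧ 0 < δ n ∧ δ n < 1 ∧
      0 < (exp (r n) * (1 - δ n)) ^ 2 - n := by
    filter_upwards [hpos, hden.eventually (lt_mem_nhds one_pos),
      hδ.eventually (gt_mem_nhds one_pos)] with n hn hd h1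
    refine ⟨hn, by simp only [δ]; positivity, h1, ?_⟩
    have e : (exp (r n) * (1 - δ n)) ^ 2 - r n * exp (r n) =
        exp (r n) ^ 2 * ((1 - δ n) ^ 2 - r n ^ 1 / exp (r n)) := by field_simp
    rw [← hν n, e]
    positivity
  refine tendsto_of_tendsto_of_tendsto_of_le_of_le' hL hU ?_ ?_
  · filter_upwards [hb] with n ⟨h1, h2, h3, h4⟩
    have := mul_le_mul_of_nonneg_left (UU_bounds (hν n) h2 h3 h4).1
      (by positivity : 0 ≤ r n * exp (r n ^ 2 / 2))
    refine le_trans (le_of_eq ?_) this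
    ring
  · filter_upwards [hb] with n ⟨h1, h2, h3, h4⟩
    have := mul_le_mul_of_nonneg_left (UU_bounds (hν n) h2 h3 h4).2
      (by positivity : 0 ≤ r n * exp (r n ^ 2 / 2))
    refine le_trans this (le_of_eq ?_)
    ring

include hν hr in
theorem par_eventually {ρ : ℝ} (h0 : 0 < ρ) (h1 : ρ * exp 1 ≤ 1 / 2) :
    ∀ᶠ n : ℕ in atTop, Par n (exp (4 / 5 * r n)) ρ := by
  have a1 := (tendsto_pow_mul_exp hr 1 (c := 3 / 5) (by norm_num)).const_mul 2
  have a2 := ((tendsto_pow_mul_exp hr 2 (c := 2 / 5) (by norm_num)).const_mul 8).add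
    ((tendsto_pow_mul_exp hr 3 (c := 1 / 5) (by norm_num)).const_mul 4)
  simp only [mul_zero, add_zero] at a1 a2
  filter_upwards [eventually_ge_atTop 1, hr.eventually_ge_atTop 0,
    a1.eventually (ge_mem_nhds one_pos), a2.eventually (ge_mem_nhds (pow_pos h0 4))]
    with n b1 b2 b3 b4
  refine ⟨b1, one_le_exp (by positivity), ?_, ?_, h0, h1⟩
  · rw [← hν n, ← exp_nat_mul]
    have e : exp (r n) = exp (-(3 / 5 * r n)) * exp ((2 : ℕ) * (4 / 5 * r n)) := by
      rw [← exp_add]; congr 1; push_cast; ring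
    rw [e]
    have := mul_le_mul_of_nonneg_right b3 (exp_pos ((2 : ℕ) * (4 / 5 * r n))).le
    linarith
  · refine le_trans (le_of_eq ?_) b4
    rw [← hν n]
    have e1 : exp (-(2 / 5 * r n)) = exp (r n) ^ 2 / exp (4 / 5 * r n) ^ 3 := by
      rw [← exp_nat_mul, ← exp_nat_mul, ← exp_sub]; congr 1; push_cast; ring
    have e2 : exp (-(1 / 5 * r n)) = exp (r n) ^ 3 / exp (4 / 5 * r n) ^ 4 := by
      rw [← exp_nat_mul, ← exp_nat_mul, ← exp_sub]; congr 1; push_cast; ring
    rw [e1, e2]
    field_simp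
    ring

include hν hr in
theorem Err_tendsto : Tendsto (fun n : ℕ => r n * exp (r n ^ 2 / 2) *
    (n.factorial * Err n (exp (4 / 5 * r n)) / exp (n * r n - n + exp (r n)) ^ 2)) atTop
    (𝓝 0) := by
  set C := exp (exp 2) ^ 2 + 1 with hC
  have h1 : Tendsto (fun n : ℕ => C * exp (-(n : ℝ))) atTop (𝓝 0) := by
    simpa using (tendsto_exp_neg_atTop_nhds_zero.comp tendsto_natCast_atTop_atTop).const_mul C
  have h2 := tendsto_pow_mul_exp hr 1 (c := 1 / 5) (by norm_num)
  refine squeeze_zero' ?_ ?_ h1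
  · filter_upwards [hr.eventually_gt_atTop 0] with n hn
    unfold Err
    positivity
  filter_upwards [hr.eventually_gt_atTop 0, h2.eventually (ge_mem_nhds (exp_pos (-9)))]
    with n hn h3
  have hn0 : (0 : ℝ) ≤ n := Nat.cast_nonneg n
  have hμ : 1 ≤ exp (r n) := one_le_exp hn.le
  have hrμ : r n ≤ exp (r n) := by linarith [add_one_le_exp (r n)]
  have hrn : r n ≤ n := by rw [← hν n]; exact le_mul_of_one_le_right hn.le hμ
  have hr2 : r n ^ 2 ≤ n := by rw [← hν n, sq]; exact mul_le_mul_of_nonneg_left hrμ hn.le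
  have hlog : log (r n) ≤ 1 / 5 * r n - 9 := by
    rw [log_le_iff_le_exp hn, sub_eq_add_neg, exp_add]
    rw [pow_one, exp_neg, ← div_eq_mul_inv, div_le_iff₀' (exp_pos _)] at h3
    exact h3
  have b1 : r n ≤ exp n := hrn.trans (by linarith [add_one_le_exp (n : ℝ)])
  have b2 : exp (r n ^ 2 / 2) ≤ exp n := exp_le_exp.2 (by linarith)
  have b3 : (n.factorial : ℝ) ≤ exp (n * (log (r n) + r n)) := by
    rw [exp_nat_mul, exp_add, exp_log hn, hν n]
    exact_mod_cast Nat.factorial_le_pow n
  have b4 : Err n (exp (4 / 5 * r n)) ≤ C * exp (n * (4 / 5 * r n) + 4 * n) := by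
    have c1 : (n : ℝ) + 1 ≤ exp n := add_one_le_exp _
    have c2 : 1 ≤ exp (n : ℝ) := one_le_exp hn0
    have c3 : exp (n * (4 / 5 * r n) + 4 * n) = exp (4 / 5 * r n) ^ n * exp n ^ 4 := by
      rw [exp_add, exp_nat_mul, ← exp_nat_mul (n : ℝ) 4]; norm_num
    have c4 : exp (2 * (n : ℝ)) = exp n ^ 2 := by rw [← exp_nat_mul]; norm_num
    rw [Err, c3, c4, hC, add_mul (exp (exp 2) ^ 2) 1, one_mul]
    have hm : 0 ≤ exp (4 / 5 * r n) ^ n := by positivity
    generalize exp (4 / 5 * r n) ^ n = M at hm ⊢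
    generalize exp (n : ℝ) = E at c1 c2 ⊢
    have c5 : ((n : ℝ) + 1) ^ 2 ≤ E ^ 2 := pow_le_pow_left₀ (by positivity) c1 2
    have c6 : E ^ 3 ≤ E ^ 4 := pow_le_pow_right₀ c2 (by norm_num)
    refine _root_.add_le_add ?_ ?_
    · rw [mul_comm]
      refine mul_le_mul_of_nonneg_left ?_ (by positivity)
      calc ((n : ℝ) + 1) ^ 2 * (M * E) ≤ E ^ 2 * (M * E) :=
            mul_le_mul_of_nonneg_right c5 (by positivity)
        _ = M * E ^ 3 := by ring
        _ ≤ M * E ^ 4 := mul_le_mul_of_nonneg_left c6 hm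
    · calc ((n : ℝ) + 1) * (M * E ^ 2) ≤ E * (M * E ^ 2) :=
            mul_le_mul_of_nonneg_right c1 (by positivity)
        _ = M * E ^ 3 := by ring
        _ ≤ M * E ^ 4 := mul_le_mul_of_nonneg_left c6 hm
  have b5 : exp (2 * (n * r n - n)) ≤ exp (n * r n - n + exp (r n)) ^ 2 := by
    rw [← exp_nat_mul, exp_le_exp]; push_cast; linarith
  have hE : 0 ≤ Err n (exp (4 / 5 * r n)) := by unfold Err; positivity
  calc _ ≤ exp n * exp n * (exp (n * (log (r n) + r n)) * (C * exp (n * (4 / 5 * r n) + 4 * n)) /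
        exp (2 * (n * r n - n))) := by
        refine mul_le_mul (mul_le_mul b1 b2 (exp_pos _).le (exp_pos _).le) ?_ (by positivity)
          (by positivity)
        exact div_le_div₀ (by positivity) (mul_le_mul b3 b4 hE (exp_pos _).le) (exp_pos _) b5
    _ = C * exp (n + n + n * (log (r n) + r n) + (n * (4 / 5 * r n) + 4 * n) -
          2 * (n * r n - n)) := by
        simp only [exp_add, exp_sub]; ring
    _ ≤ C * exp (-(n : ℝ)) := by
        refine mul_le_mul_of_nonneg_left (exp_le_exp.2 ?_) (by positivity)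
        have := mul_le_mul_of_nonneg_left hlog hn0
        nlinarith

include hν hr in
theorem main1 (Ω : Type) [Infinite Ω] [DecidableEq Ω] :
    Asymptotics.IsEquivalent atTop (fun n : ℕ => (orbitCount (wreath Ω) (Ω × Ω) n : ℝ))
      (fun n : ℕ => exp (2 * (n * r n - n + exp (r n) - 1) - r n ^ 2 / 2) /
        (2 * n.factorial * (r n + 1))) := by
  let K : ℕ → ℝ := fun n =>
    r n * exp (r n ^ 2 / 2) * n.factorial / exp (n * r n - n + exp (r n)) ^ 2
  have hpos := hr.eventually_gt_atTop 0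
  have hU : Tendsto (fun n => K n * UU n) atTop (𝓝 1) :=
    (UU_tendsto hν hr).congr fun n => by simp only [K]; ring
  have hE : Tendsto (fun n => K n * Err n (exp (4 / 5 * r n))) atTop (𝓝 0) :=
    (Err_tendsto hν hr).congr fun n => by simp only [K]; ring
  have hK : ∀ᶠ n in atTop, 0 < K n := by
    filter_upwards [hpos] with n hn
    simp only [K]; positivity
  have he : exp 2 * exp (-2) = 1 := by rw [← exp_add]; simp
  have h1 : Tendsto (fun n => exp 2 * K n * (2 * (orbitCount (wreath Ω) (Ω × Ω) n : ℝ))) atTop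
      (𝓝 1) := by
    rw [tendsto_order]
    constructor
    · intro a ha
      filter_upwards [hK, hU.eventually (lt_mem_nhds ha),
        par_eventually hν hr (ρ := 1 / (2 * exp 1)) (by positivity) (le_of_eq (by field_simp))]
        with n h1 h2 h3
      refine h2.trans_le (le_trans (le_of_eq ?_) (mul_le_mul_of_nonneg_left
        (orbit_bounds Ω h3).1 (by positivity)))
      linear_combination -(K n * UU n) * he
    · intro a ha
      set η := min (1 / 2) ((a - 1) / (12 * exp 2)) with hη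
      have hη0 : 0 < η := lt_min (by norm_num) (by have := sub_pos.2 ha; positivity)
      have hη2 : 6 * η * exp 2 ≤ (a - 1) / 2 := by
        have : η ≤ (a - 1) / (12 * exp 2) := min_le_right _ _
        rw [le_div_iff₀ (by positivity)] at this
        linarith
      have hρ : η / exp 1 * exp 1 = η := by field_simp
      have h2 := (hU.const_mul (1 + 6 * η * exp 2)).add (hE.const_mul (exp 2))
      filter_upwards [hK, h2.eventually (gt_mem_nhds (show _ < a by linarith)),
        par_eventually hν hr (ρ := η / exp 1) (by positivity) (by rw [hρ]; exact min_le_left _ _)]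
        with n h1 h2 h3
      refine lt_of_le_of_lt (le_trans (mul_le_mul_of_nonneg_left
        (orbit_bounds Ω h3).2 (by positivity)) (le_of_eq ?_)) h2
      rw [hρ]
      linear_combination (K n * UU n) * he
  have h2 : Tendsto (fun n => 1 + 1 / r n ^ 1) atTop (𝓝 1) := by
    simpa using (tendsto_inv_pow hr one_ne_zero).const_add 1
  have h3 := h1.mul h2
  rw [mul_one] at h3
  refine (Asymptotics.isEquivalent_iff_tendsto_one ?_).2 (h3.congr' ?_)
  · filter_upwards [hpos] with n hn
    positivity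
  · filter_upwards [hpos] with n hn
    have e : exp (2 * (n * r n - n + exp (r n) - 1) - r n ^ 2 / 2) =
        exp (n * r n - n + exp (r n)) ^ 2 / (exp 2 * exp (r n ^ 2 / 2)) := by
      rw [← exp_nat_mul, ← exp_add, ← exp_sub]; congr 1; push_cast; ring
    simp only [K, Pi.div_apply]
    rw [e]
    field_simp

end Pool.Agent.Lib.MP_cfcaf3_co
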